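import Mathlib
import Pool.Agent.H362R2.CM.Box
/-!
# Densities of pairs in a multipartite structure without an independent transversal 4-set

A relation between the elements of `m` large classes such that any `K` elements of each of 4 classes
contain a related pair from different classes. Almost all transversals span at least `tur m` related
pairs (Turan's theorem for four classes), hence the densities of the relation between the pairs of
classes sum up to at least `tur m - δ`.
-/

namespace Pool.Agent.R493.OT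

open Finset

/-- the least number of edges of a graph on `m` vertices, among any four of which there is an edge -/
def tur (m : ℕ) : ℕ := (m / 3).choose 2 + ((m + 1) / 3).choose 2 + ((m + 2) / 3).choose 2

theorem tur_arith (m : ℕ) :
    tur m + ((m ^ 2 - (m % 3) ^ 2) * (3 - 1) / (2 * 3) + (m % 3).choose 2) ≤ m.choose 2 := by
  unfold tur
  obtain ⟨q, hq⟩ : ∃ q, m / 3 = q := ⟨_, rfl⟩
  have h3 : m % 3 < 3 := Nat.mod_lt _ (by norm_num)
  have hm : m = 3 * q + m % 3 := by omega
  have hc : ∀ a : ℕ, a.choose 2 * 2 = a * (a - 1) := fun a => by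
    rw [Nat.choose_two_right]
    exact Nat.div_mul_cancel (Nat.even_mul_pred_self a).two_dvd
  rcases (show m % 3 = 0 ∨ m % 3 = 1 ∨ m % 3 = 2 by omega) with h | h | h
  · have e1 : m = 3 * q := by omega
    have e2 : (m + 1) / 3 = q := by omega
    have e3 : (m + 2) / 3 = q := by omega
    rw [e2, e3, hq, h, e1]
    have h1 := hc q
    have h2 := hc (3 * q)
    have h4 : ((3 * q) ^ 2 - 0 ^ 2) * (3 - 1) / (2 * 3) = 3 * q ^ 2 := by
      apply Nat.div_eq_of_eq_mul_left (by norm_num)
      simp
      ring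
    rw [h4]
    rcases Nat.eq_zero_or_pos q with rfl | hq0
    · simp
    obtain ⟨t, rfl⟩ : ∃ t, q = t + 1 := ⟨q - 1, by omega⟩
    simp only [Nat.add_sub_cancel] at h1
    have h5 : 3 * (t + 1) - 1 = 3 * t + 2 := by omega
    rw [h5] at h2
    have h6 : (0 : ℕ).choose 2 = 0 := rfl
    rw [h6]
    nlinarith
  · have e1 : m = 3 * q + 1 := by omega
    have e2 : (m + 1) / 3 = q := by omega
    have e3 : (m + 2) / 3 = q + 1 := by omega
    rw [e2, e3, hq, h, e1]
    have h1 := hc q
    have h1' := hc (q + 1)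
    have h2 := hc (3 * q + 1)
    have h4 : ((3 * q + 1) ^ 2 - 1 ^ 2) * (3 - 1) / (2 * 3) = 3 * q ^ 2 + 2 * q := by
      apply Nat.div_eq_of_eq_mul_left (by norm_num)
      have : (3 * q + 1) ^ 2 - 1 ^ 2 = 9 * q ^ 2 + 6 * q := by
        have : (3 * q + 1) ^ 2 = 9 * q ^ 2 + 6 * q + 1 := by ring
        omega
      rw [this]
      ring
    rw [h4]
    simp only [Nat.add_sub_cancel] at h1' h2
    have h6 : (1 : ℕ).choose 2 = 0 := rfl
    rw [h6]
    rcases Nat.eq_zero_or_pos q with rfl | hq0
    · simp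
    obtain ⟨t, rfl⟩ : ∃ t, q = t + 1 := ⟨q - 1, by omega⟩
    simp only [Nat.add_sub_cancel] at h1
    nlinarith
  · have e1 : m = 3 * q + 2 := by omega
    have e2 : (m + 1) / 3 = q + 1 := by omega
    have e3 : (m + 2) / 3 = q + 1 := by omega
    rw [e2, e3, hq, h, e1]
    have h1 := hc q
    have h1' := hc (q + 1)
    have h2 := hc (3 * q + 2)
    have h4 : ((3 * q + 2) ^ 2 - 2 ^ 2) * (3 - 1) / (2 * 3) = 3 * q ^ 2 + 4 * q := by
      apply Nat.div_eq_of_eq_mul_left (by norm_num)
      have : (3 * q + 2) ^ 2 - 2 ^ 2 = 9 * q ^ 2 + 12 * q := by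
        have : (3 * q + 2) ^ 2 = 9 * q ^ 2 + 12 * q + 4 := by ring
        omega
      rw [this]
      ring
    rw [h4]
    simp only [Nat.add_sub_cancel] at h1'
    have h5 : 3 * q + 2 - 1 = 3 * q + 1 := by omega
    rw [h5] at h2
    have h6 : (2 : ℕ).choose 2 = 1 := rfl
    rw [h6]
    rcases Nat.eq_zero_or_pos q with rfl | hq0
    · simp
    obtain ⟨t, rfl⟩ : ∃ t, q = t + 1 := ⟨q - 1, by omega⟩
    simp only [Nat.add_sub_cancel] at h1
    nlinarith

open Classical in
/-- the pairs `i < j` of indices -/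
noncomputable def prs (m : ℕ) : Finset (Fin m × Fin m) := univ.filter (fun p => p.1 < p.2)

open Classical in
/-- Turan's theorem for four vertices, in complementary form -/
theorem turan_four {m : ℕ} (r : Fin m → Fin m → Prop)
    (h4 : ∀ t : Finset (Fin m), t.card = 4 → ∃ i ∈ t, ∃ j ∈ t, i < j ∧ r i j) :
    tur m ≤ ((prs m).filter (fun p => r p.1 p.2)).card := by
  set G : SimpleGraph (Fin m) :=
    { Adj := fun i j => i ≠ j ∧ ¬ r (min i j) (max i j)
      symm := ⟨fun i j h => ⟨h.1.symm, by rw [min_comm, max_comm]; exact h.2⟩⟩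
      loopless := ⟨fun i h => h.1 rfl⟩ } with hG
  have hfree : G.CliqueFree (3 + 1) := by
    intro t ht
    rw [SimpleGraph.isNClique_iff] at ht
    obtain ⟨hcl, hcard⟩ := ht
    obtain ⟨i, hi, j, hj, hij, hr⟩ := h4 t hcard
    have h2 : G.Adj i j := hcl (by exact_mod_cast hi) (by exact_mod_cast hj) hij.ne
    apply h2.2
    rw [min_eq_left hij.le, max_eq_right hij.le]
    exact hr
  have h1 := hfree.card_edgeFinset_le
  simp only [Fintype.card_fin] at h1
  -- the number of edges
  have h2 : G.edgeFinset.card = ((prs m).filter (fun p => ¬ r p.1 p.2)).card := by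
    symm
    apply Finset.card_bij (fun p _ => s(p.1, p.2))
    · intro p hp
      obtain ⟨hp1, hp2⟩ := mem_filter.1 hp
      unfold prs at hp1
      have hlt : p.1 < p.2 := (mem_filter.1 hp1).2
      rw [SimpleGraph.mem_edgeFinset, SimpleGraph.mem_edgeSet]
      refine ⟨hlt.ne, ?_⟩
      rw [min_eq_left hlt.le, max_eq_right hlt.le]
      exact hp2
    · intro p hp p' hp' he
      obtain ⟨hp1, hp2⟩ := mem_filter.1 hp
      obtain ⟨hp1', hp2'⟩ := mem_filter.1 hp'
      unfold prs at hp1 hp1'
      have hlt : p.1 < p.2 := (mem_filter.1 hp1).2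
      have hlt' : p'.1 < p'.2 := (mem_filter.1 hp1').2
      rw [Sym2.eq_iff] at he
      rcases he with ⟨e1, e2⟩ | ⟨e1, e2⟩
      · exact Prod.ext e1 e2
      · exfalso
        rw [e1, e2] at hlt
        exact absurd hlt (not_lt.2 hlt'.le)
    · intro e he
      induction e using Sym2.ind with
      | _ x y =>
        rw [SimpleGraph.mem_edgeFinset, SimpleGraph.mem_edgeSet] at he
        obtain ⟨hne, hr⟩ := he
        rcases lt_or_gt_of_ne hne with h | h
        · refine ⟨(x, y), ?_, rfl⟩
          rw [min_eq_left h.le, max_eq_right h.le] at hr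
          exact mem_filter.2 ⟨mem_filter.2 ⟨mem_univ _, h⟩, hr⟩
        · refine ⟨(y, x), ?_, Sym2.eq_swap⟩
          rw [min_eq_right h.le, max_eq_left h.le] at hr
          exact mem_filter.2 ⟨mem_filter.2 ⟨mem_univ _, h⟩, hr⟩
  have h3 : (prs m).card = m.choose 2 := by
    unfold prs
    have e : ((univ : Finset (Fin m × Fin m)).filter (fun p => p.1 < p.2)).card =
        ((univ : Finset (Fin m)).powersetCard 2).card := by
      apply Finset.card_bij (fun p _ => ({p.1, p.2} : Finset (Fin m)))
      · intro p hp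
        have hlt : p.1 < p.2 := (mem_filter.1 hp).2
        rw [mem_powersetCard]
        exact ⟨subset_univ _, card_pair hlt.ne⟩
      · intro p hp p' hp' he
        have hlt : p.1 < p.2 := (mem_filter.1 hp).2
        have hlt' : p'.1 < p'.2 := (mem_filter.1 hp').2
        have a1 : p.1 ∈ ({p'.1, p'.2} : Finset (Fin m)) := by rw [← he]; simp
        have a2 : p.2 ∈ ({p'.1, p'.2} : Finset (Fin m)) := by rw [← he]; simp
        rw [mem_insert, mem_singleton] at a1 a2
        rcases a1 with a1 | a1 <;> rcases a2 with a2 | a2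
        · rw [a1, a2] at hlt; exact absurd hlt (lt_irrefl _)
        · exact Prod.ext a1 a2
        · rw [a1, a2] at hlt; exact absurd hlt (not_lt.2 hlt'.le)
        · rw [a1, a2] at hlt; exact absurd hlt (lt_irrefl _)
      · intro t ht
        rw [mem_powersetCard] at ht
        obtain ⟨x, y, hxy, rfl⟩ := card_eq_two.1 ht.2
        rcases lt_or_gt_of_ne hxy with h | h
        · exact ⟨(x, y), mem_filter.2 ⟨mem_univ _, h⟩, rfl⟩
        · exact ⟨(y, x), mem_filter.2 ⟨mem_univ _, h⟩, pair_comm _ _⟩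
    rw [e, card_powersetCard, card_univ, Fintype.card_fin]
  have h4' := Finset.card_filter_add_card_filter_not (s := prs m) (fun p => r p.1 p.2)
  have h5 := tur_arith m
  rw [h2] at h1
  omega

/-- the marginal of a sum over transversals to two coordinates -/
theorem sum_pi_pair {m : ℕ} {α : Type} [DecidableEq α] (V : Fin m → Finset α) {i j : Fin m}
    (hij : i ≠ j) (φ : α → α → ℝ) :
    ((V i).card : ℝ) * ((V j).card : ℝ) * ∑ x ∈ Fintype.piFinset V, φ (x i) (x j) =
      (∏ l, ((V l).card : ℝ)) * ∑ a ∈ V i, ∑ b ∈ V j, φ a b := by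
  classical
  have key : ∑ x ∈ Fintype.piFinset V, φ (x i) (x j) =
      (∏ l ∈ (univ.erase i).erase j, ((V l).card : ℝ)) * ∑ a ∈ V i, ∑ b ∈ V j, φ a b := by
    have h1 : ∀ x ∈ Fintype.piFinset V, φ (x i) (x j) =
        ∑ a ∈ V i, ∑ b ∈ V j, φ a b * ∏ l, (if l = i then (if x l = a then (1:ℝ) else 0) else
          if l = j then (if x l = b then 1 else 0) else 1) := by
      intro x hx
      rw [Fintype.mem_piFinset] at hx
      have hprod : ∀ a b : α, ∏ l, (if l = i then (if x l = a then (1:ℝ) else 0) else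
          if l = j then (if x l = b then 1 else 0) else 1) =
          (if x i = a then 1 else 0) * (if x j = b then 1 else 0) := by
        intro a b
        rw [← Finset.mul_prod_erase univ _ (mem_univ i),
          ← Finset.mul_prod_erase (univ.erase i) _ (mem_erase.2 ⟨hij.symm, mem_univ j⟩)]
        rw [if_pos rfl, if_neg hij.symm, if_pos rfl]
        rw [Finset.prod_eq_one, mul_one]
        intro l hl
        rw [mem_erase, mem_erase] at hl
        rw [if_neg hl.2.1, if_neg hl.1]
      simp_rw [hprod]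
      rw [Finset.sum_eq_single (x i)]
      · rw [Finset.sum_eq_single (x j)]
        · simp
        · intro b _ hb
          rw [if_neg (c := x j = b) (fun h => hb h.symm)]
          simp
        · intro h; exact absurd (hx j) h
      · intro a _ ha
        apply Finset.sum_eq_zero
        intro b _
        rw [if_neg (fun h => ha h.symm)]
        simp
      · intro h; exact absurd (hx i) h
    rw [Finset.sum_congr rfl h1, Finset.sum_comm, Finset.mul_sum]
    apply Finset.sum_congr rfl
    intro a ha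
    rw [Finset.sum_comm, Finset.mul_sum]
    apply Finset.sum_congr rfl
    intro b hb
    rw [← Finset.mul_sum]
    have h2 := Finset.prod_univ_sum V (fun l y => (if l = i then (if y = a then (1:ℝ) else 0) else
          if l = j then (if y = b then 1 else 0) else 1))
    rw [← h2, mul_comm]
    congr 1
    rw [← Finset.mul_prod_erase univ _ (mem_univ i),
          ← Finset.mul_prod_erase (univ.erase i) _ (mem_erase.2 ⟨hij.symm, mem_univ j⟩)]
    have e1 : ∑ y ∈ V i, (if i = i then (if y = a then (1:ℝ) else 0) else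
          if i = j then (if y = b then 1 else 0) else 1) = 1 := by
      simp [ha]
    have e2 : ∑ y ∈ V j, (if j = i then (if y = a then (1:ℝ) else 0) else
          if j = j then (if y = b then 1 else 0) else 1) = 1 := by
      simp [hb, hij.symm]
    rw [e1, e2, one_mul, one_mul]
    apply Finset.prod_congr rfl
    intro l hl
    rw [mem_erase, mem_erase] at hl
    simp [hl.1, hl.2.1]
  rw [key, ← Finset.mul_prod_erase univ _ (mem_univ i),
    ← Finset.mul_prod_erase (univ.erase i) _ (mem_erase.2 ⟨hij.symm, mem_univ j⟩)]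
  ring

open Classical in
/-- almost all transversals span at least `tur m` related pairs -/
theorem rare (m K : ℕ) {δ : ℝ} (hδ : 0 < δ) : ∃ N : ℕ, ∀ (α : Type)
    (R : Fin m → Fin m → α → α → Prop) (V : Fin m → Finset α), (∀ i, N ≤ (V i).card) →
    (∀ t : Finset (Fin m), t.card = 4 → ∀ A : Fin m → Fin K → α,
      (∀ i, Function.Injective (A i)) → (∀ i k, A i k ∈ V i) →
      ∃ i ∈ t, ∃ j ∈ t, i < j ∧ ∃ k k', R i j (A i k) (A j k')) →
    ((((Fintype.piFinset V).filter (fun x =>
      ((prs m).filter (fun p => R p.1 p.2 (x p.1) (x p.2))).card < tur m)).card : ℕ) : ℝ) ≤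
      δ * ∏ i, ((V i).card : ℝ) := by
  obtain ⟨N, hN⟩ := Pool.Agent.H362R2.CM.box_lemma m (K + 1) (δ / (2 ^ m + 1))
    (by positivity)
  refine ⟨N, fun α R V hV h4 => ?_⟩
  by_contra hcon
  push Not at hcon
  set Bad := (Fintype.piFinset V).filter (fun x =>
      ((prs m).filter (fun p => R p.1 p.2 (x p.1) (x p.2))).card < tur m) with hBad
  -- the independent sets
  have h1 : Bad ⊆ ((univ : Finset (Finset (Fin m))).filter (fun t => t.card = 4)).biUnion
      (fun t => (Fintype.piFinset V).filter (fun x =>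
        ∀ i ∈ t, ∀ j ∈ t, i < j → ¬ R i j (x i) (x j))) := by
    intro x hx
    obtain ⟨hx1, hx2⟩ := mem_filter.1 hx
    by_contra hno
    apply absurd (turan_four (fun i j => R i j (x i) (x j)) (fun t ht => ?_)) (not_le.2 hx2)
    by_contra hno2
    push Not at hno2
    exact hno (mem_biUnion.2 ⟨t, mem_filter.2 ⟨mem_univ _, ht⟩, mem_filter.2 ⟨hx1, hno2⟩⟩)
  have h2 : ∃ t : Finset (Fin m), t.card = 4 ∧ δ / (2 ^ m + 1) * ∏ i, ((V i).card : ℝ) ≤
      ((Fintype.piFinset V).filter (fun x =>
        ∀ i ∈ t, ∀ j ∈ t, i < j → ¬ R i j (x i) (x j))).card := by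
    by_contra hno
    push Not at hno
    have h3 : ((Bad.card : ℕ) : ℝ) ≤ ∑ t ∈ (univ : Finset (Finset (Fin m))).filter (fun t => t.card = 4),
        (((Fintype.piFinset V).filter (fun x =>
        ∀ i ∈ t, ∀ j ∈ t, i < j → ¬ R i j (x i) (x j))).card : ℝ) := by
      exact_mod_cast (card_le_card h1).trans card_biUnion_le
    have h4 : ∑ t ∈ (univ : Finset (Finset (Fin m))).filter (fun t => t.card = 4),
        (((Fintype.piFinset V).filter (fun x =>
        ∀ i ∈ t, ∀ j ∈ t, i < j → ¬ R i j (x i) (x j))).card : ℝ) ≤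
        ∑ t ∈ (univ : Finset (Finset (Fin m))).filter (fun t => t.card = 4),
          δ / (2 ^ m + 1) * ∏ i, ((V i).card : ℝ) :=
      Finset.sum_le_sum (fun t ht => (hno t (mem_filter.1 ht).2).le)
    rw [Finset.sum_const, nsmul_eq_mul] at h4
    have h5 : (((univ : Finset (Finset (Fin m))).filter (fun t => t.card = 4)).card : ℝ) ≤ 2 ^ m := by
      have : ((univ : Finset (Finset (Fin m))).filter (fun t => t.card = 4)).card ≤ 2 ^ m := by
        refine (card_le_univ _).trans ?_
        simp
      exact_mod_cast this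
    have h6 : (0 : ℝ) ≤ ∏ i, ((V i).card : ℝ) := Finset.prod_nonneg (fun i _ => Nat.cast_nonneg _)
    have h7 : (((univ : Finset (Finset (Fin m))).filter (fun t => t.card = 4)).card : ℝ) *
        (δ / (2 ^ m + 1) * ∏ i, ((V i).card : ℝ)) ≤ δ * ∏ i, ((V i).card : ℝ) := by
      have h8 : (((univ : Finset (Finset (Fin m))).filter (fun t => t.card = 4)).card : ℝ) *
        (δ / (2 ^ m + 1)) ≤ δ := by
        rw [mul_div_assoc', div_le_iff₀ (by positivity)]
        nlinarith
      calc _ = ((((univ : Finset (Finset (Fin m))).filter (fun t => t.card = 4)).card : ℝ) *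
        (δ / (2 ^ m + 1))) * ∏ i, ((V i).card : ℝ) := by ring
        _ ≤ _ := mul_le_mul_of_nonneg_right h8 h6
    linarith
  obtain ⟨t, ht, hcard⟩ := h2
  obtain ⟨A, hA1, hA2⟩ := hN α V hV _ (filter_subset _ _) hcard
  have hmem : ∀ i k, A i k ∈ V i := by
    intro i k
    have := (mem_filter.1 (hA2 (fun _ => k))).1
    rw [Fintype.mem_piFinset] at this
    exact this i
  obtain ⟨i, hi, j, hj, hij, k, k', hR⟩ := h4 t ht (fun i k => A i (Fin.castSucc k))
    (fun i a b hab => Fin.castSucc_injective _ (hA1 i hab)) (fun i k => hmem i _)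
  have h9 := (mem_filter.1 (hA2 (fun l => if l = i then Fin.castSucc k else Fin.castSucc k'))).2 i hi j hj hij
  simp only [if_pos, if_neg hij.ne'] at h9
  exact h9 hR

open Classical in
/-- the densities of the relation between the pairs of classes sum up to almost `tur m` -/
theorem dens (m K : ℕ) {δ : ℝ} (hδ : 0 < δ) : ∃ N : ℕ, 1 ≤ N ∧ ∀ (α : Type)
    (R : Fin m → Fin m → α → α → Prop) (V : Fin m → Finset α), (∀ i, N ≤ (V i).card) →
    (∀ t : Finset (Fin m), t.card = 4 → ∀ A : Fin m → Fin K → α,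
      (∀ i, Function.Injective (A i)) → (∀ i k, A i k ∈ V i) →
      ∃ i ∈ t, ∃ j ∈ t, i < j ∧ ∃ k k', R i j (A i k) (A j k')) →
    (tur m : ℝ) - δ ≤ ∑ p ∈ prs m,
      ((∑ a ∈ V p.1, ∑ b ∈ V p.2, (if R p.1 p.2 a b then (1 : ℝ) else 0)) /
        (((V p.1).card : ℝ) * ((V p.2).card : ℝ))) := by
  obtain ⟨N, hN⟩ := rare m K (δ := δ / (tur m + 1)) (by positivity)
  refine ⟨max 1 N, le_max_left _ _, fun α R V hV h4 => ?_⟩
  have hr := hN α R V (fun i => (le_max_right _ _).trans (hV i)) h4
  have hV0 : ∀ i, (0 : ℝ) < (V i).card := fun i => by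
    exact_mod_cast (lt_of_lt_of_le one_pos ((le_max_left _ _).trans (hV i)))
  have hP : (0 : ℝ) < ∏ i, ((V i).card : ℝ) := Finset.prod_pos (fun i _ => hV0 i)
  set P := ∏ i, ((V i).card : ℝ) with hPdef
  -- total number of edges
  have h1 : P * ∑ p ∈ prs m,
      ((∑ a ∈ V p.1, ∑ b ∈ V p.2, (if R p.1 p.2 a b then (1 : ℝ) else 0)) /
        (((V p.1).card : ℝ) * ((V p.2).card : ℝ))) =
      ∑ x ∈ Fintype.piFinset V, (((prs m).filter (fun p => R p.1 p.2 (x p.1) (x p.2))).card : ℝ) := by
    have e1 : ∀ x ∈ Fintype.piFinset V,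
        (((prs m).filter (fun p => R p.1 p.2 (x p.1) (x p.2))).card : ℝ) =
        ∑ p ∈ prs m, (if R p.1 p.2 (x p.1) (x p.2) then (1 : ℝ) else 0) := by
      intro x _
      rw [Finset.card_filter]
      push_cast
      rfl
    rw [Finset.sum_congr rfl e1, Finset.sum_comm, Finset.mul_sum]
    apply Finset.sum_congr rfl
    intro p hp
    have hlt : p.1 < p.2 := (mem_filter.1 hp).2
    have e2 := sum_pi_pair V hlt.ne (fun a b => if R p.1 p.2 a b then (1 : ℝ) else 0)
    have h0 : ((V p.1).card : ℝ) * ((V p.2).card : ℝ) ≠ 0 := (mul_pos (hV0 _) (hV0 _)).ne'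
    rw [mul_div_assoc', div_eq_iff h0]
    rw [mul_comm (∑ x ∈ Fintype.piFinset V, _)]
    exact e2.symm
  have h2 : ((tur m : ℝ) - δ) * P ≤
      ∑ x ∈ Fintype.piFinset V, (((prs m).filter (fun p => R p.1 p.2 (x p.1) (x p.2))).card : ℝ) := by
    have h3 : ∑ x ∈ (Fintype.piFinset V).filter (fun x =>
        ¬ ((prs m).filter (fun p => R p.1 p.2 (x p.1) (x p.2))).card < tur m), (tur m : ℝ) ≤
        ∑ x ∈ Fintype.piFinset V, (((prs m).filter (fun p => R p.1 p.2 (x p.1) (x p.2))).card : ℝ) := by
      refine (Finset.sum_le_sum (fun x hx => ?_)).trans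
        (Finset.sum_le_sum_of_subset_of_nonneg (filter_subset _ _) (fun _ _ _ => Nat.cast_nonneg _))
      exact_mod_cast not_lt.1 (mem_filter.1 hx).2
    rw [Finset.sum_const, nsmul_eq_mul] at h3
    have h4' := Finset.card_filter_add_card_filter_not (s := Fintype.piFinset V) (fun x =>
        ((prs m).filter (fun p => R p.1 p.2 (x p.1) (x p.2))).card < tur m)
    rw [Fintype.card_piFinset] at h4'
    have h5 : ((((Fintype.piFinset V).filter (fun x =>
        ((prs m).filter (fun p => R p.1 p.2 (x p.1) (x p.2))).card < tur m)).card : ℕ) : ℝ) +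
        ((((Fintype.piFinset V).filter (fun x =>
        ¬ ((prs m).filter (fun p => R p.1 p.2 (x p.1) (x p.2))).card < tur m)).card : ℕ) : ℝ) = P := by
      rw [hPdef]
      exact_mod_cast h4'
    have h6 : (δ / (tur m + 1)) * (tur m) ≤ δ := by
      rw [div_mul_eq_mul_div, div_le_iff₀ (by positivity)]
      nlinarith [Nat.cast_nonneg (α := ℝ) (tur m)]
    have h7 : (P - δ / (tur m + 1) * P) * (tur m : ℝ) ≤
        ((((Fintype.piFinset V).filter (fun x =>
        ¬ ((prs m).filter (fun p => R p.1 p.2 (x p.1) (x p.2))).card < tur m)).card : ℕ) : ℝ) * (tur m : ℝ) := by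
      apply mul_le_mul_of_nonneg_right _ (Nat.cast_nonneg _)
      linarith
    have h8 : ((tur m : ℝ) - δ) * P ≤ (P - δ / (tur m + 1) * P) * (tur m : ℝ) := by
      have : (δ / (tur m + 1)) * (tur m) * P ≤ δ * P := mul_le_mul_of_nonneg_right h6 hP.le
      nlinarith
    linarith
  have h9 : ((tur m : ℝ) - δ) * P ≤ P * ∑ p ∈ prs m,
      ((∑ a ∈ V p.1, ∑ b ∈ V p.2, (if R p.1 p.2 a b then (1 : ℝ) else 0)) /
        (((V p.1).card : ℝ) * ((V p.2).card : ℝ))) := by rw [h1]; exact h2
  rw [mul_comm P] at h9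
  exact le_of_mul_le_mul_right h9 hP

end Pool.Agent.R493.OT
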