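import Mathlib
/-!
# The weights `wt M a D` and their averages over intervals
-/

namespace Pool.Agent.R493.OT

open Finset

/-- the number of the residues `y` modulo `M` such that `y` and `a + y D` are prime to `M` -/
def wt (M : ℕ) (a D : ℤ) : ℕ :=
  ((range M).filter (fun y : ℕ => Nat.Coprime y M ∧ Int.gcd (a + y * D) M = 1)).card

theorem sum_period_one {M : ℕ} (hM : 0 < M) (f : ℤ → ℕ) (hf : ∀ b : ℤ, f (b + M) = f b) (A : ℤ) :
    ∑ b ∈ Ioc A (A + M), f b = ∑ y ∈ range M, f y := by
  have hf2 : ∀ (b : ℤ) (k : ℤ), f (b + M * k) = f b := by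
    intro b k
    have h1 : Function.Periodic f (M : ℤ) := hf
    have h2 := h1.int_mul k b
    rw [mul_comm (M : ℤ) k]
    exact h2
  have hmod : ∀ b : ℤ, f (b % M) = f b := by
    intro b
    have h1 := hf2 (b % M) (b / M)
    rw [Int.emod_add_mul_ediv] at h1
    exact h1.symm
  have hM' : (0 : ℤ) < M := by exact_mod_cast hM
  symm
  apply Finset.sum_bij' (fun (y : ℕ) _ => A + 1 + ((y : ℤ) - A - 1) % M)
    (fun (b : ℤ) _ => (b % M).toNat)
  · intro y hy
    rw [mem_Ioc]
    have h1 := Int.emod_nonneg ((y : ℤ) - A - 1) hM'.ne'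
    have h2 := Int.emod_lt_of_pos ((y : ℤ) - A - 1) hM'
    constructor <;> linarith
  · intro b hb
    rw [mem_range]
    have h1 := Int.emod_nonneg b hM'.ne'
    have h2 := Int.emod_lt_of_pos b hM'
    omega
  · intro y hy
    rw [mem_range] at hy
    have h1 : (A + 1 + ((y : ℤ) - A - 1) % M) % M = y := by
      rw [Int.add_emod, Int.emod_emod_of_dvd _ (dvd_refl _), ← Int.add_emod]
      have : A + 1 + ((y : ℤ) - A - 1) = y := by ring
      rw [this]
      exact Int.emod_eq_of_lt (by positivity) (by exact_mod_cast hy)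
    simp only [h1]
    simp
  · intro b hb
    rw [mem_Ioc] at hb
    have h1 := Int.emod_nonneg b hM'.ne'
    have h0 : ((b % M).toNat : ℤ) = b % M := Int.toNat_of_nonneg h1
    simp only [h0]
    have h2 : (b % M - A - 1) % M = b - A - 1 := by
      have h3 : b % M - A - 1 = (b - A - 1) + M * (-(b / M)) := by
        have := Int.emod_add_mul_ediv b M
        linarith
      rw [h3, Int.add_mul_emod_self_left]
      exact Int.emod_eq_of_lt (by linarith) (by linarith)
    rw [h2]
    ring
  · intro y hy
    have h1 := hf2 (y : ℤ) (- (((y : ℤ) - A - 1) / M))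
    rw [← h1]
    congr 1
    have h2 := Int.emod_add_mul_ediv ((y : ℤ) - A - 1) M
    linarith

theorem sum_period {M : ℕ} (hM : 0 < M) (f : ℤ → ℕ) (hf : ∀ b : ℤ, f (b + M) = f b) (A : ℤ)
    (K : ℕ) : ∑ b ∈ Ioc A (A + K * M), f b = K * ∑ y ∈ range M, f y := by
  induction K with
  | zero => simp
  | succ K ih =>
    have h1 : Ioc A (A + ((K + 1 : ℕ) : ℤ) * M) =
        Ioc A (A + K * M) ∪ Ioc (A + K * M) (A + K * M + M) := by
      have hM' : (0 : ℤ) < M := by exact_mod_cast hM
      have h2 : (0 : ℤ) ≤ K * M := by positivity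
      rw [Ioc_union_Ioc_eq_Ioc (by linarith) (by linarith)]
      congr 1
      push_cast
      ring
    have h3 : Disjoint (Ioc A (A + K * M)) (Ioc (A + K * M) (A + K * M + M)) := by
      rw [Finset.disjoint_left]
      intro x hx hx2
      rw [mem_Ioc] at hx hx2
      exact absurd hx.2 (not_le.2 hx2.1)
    rw [h1, Finset.sum_union h3, ih, sum_period_one hM f hf]
    ring

/-- the integers of an interval which are prime to `M` -/
noncomputable def EE (M : ℕ) (A : ℤ) (K : ℕ) : Finset ℤ :=
  (Ioc A (A + K * M)).filter (fun b => Int.gcd b M = 1)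

theorem gcd_add_M (M : ℕ) (b : ℤ) : Int.gcd (b + M) M = Int.gcd b M := by
  simp

theorem card_EE {M : ℕ} (hM : 0 < M) (A : ℤ) (K : ℕ) :
    (EE M A K).card = K * Nat.totient M := by
  unfold EE
  rw [card_filter, sum_period hM (fun b => if Int.gcd b M = 1 then 1 else 0) (fun b => by
    simp only [gcd_add_M])]
  congr 1
  rw [Nat.totient, card_filter]
  apply Finset.sum_congr rfl
  intro y _
  have : (Int.gcd (y : ℤ) M = 1) ↔ M.Coprime y := by
    rw [Int.gcd_natCast_natCast, Nat.coprime_comm]
  simp only [this]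

theorem card_both {M : ℕ} (hM : 0 < M) (A : ℤ) (K : ℕ) (a D : ℤ) :
    ((EE M A K).filter (fun b => Int.gcd (a + D * b) M = 1)).card = K * wt M a D := by
  unfold EE
  rw [filter_filter, card_filter, sum_period hM
    (fun b => if Int.gcd b M = 1 ∧ Int.gcd (a + D * b) M = 1 then 1 else 0) (fun b => by
    have h1 : a + D * (b + M) = (a + D * b) + M * D := by ring
    simp only [gcd_add_M, h1]
    simp)]
  congr 1
  rw [wt, card_filter]
  apply Finset.sum_congr rfl
  intro y _
  have h1 : (Int.gcd (y : ℤ) M = 1) ↔ Nat.Coprime y M := by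
    rw [Int.gcd_natCast_natCast]
  simp only [h1, mul_comm D]

/-- the sum of the weights over an interval -/
theorem sum_wt {M : ℕ} (hM : 0 < M) (D A : ℤ) (H : ℕ) :
    ∑ a ∈ Ioc A (A + H * M), wt M a D = H * Nat.totient M ^ 2 := by
  have h0 : ∀ a ∈ Ioc A (A + H * M), wt M a D =
      ∑ y ∈ (range M).filter (fun y : ℕ => Nat.Coprime y M),
        (if Int.gcd (a + y * D) M = 1 then 1 else 0) := by
    intro a _
    rw [wt, ← filter_filter, card_filter]
  rw [Finset.sum_congr rfl h0, Finset.sum_comm]
  have h1 : ∀ y ∈ (range M).filter (fun y : ℕ => Nat.Coprime y M),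
      ∑ a ∈ Ioc A (A + H * M), (if Int.gcd (a + y * D) M = 1 then 1 else 0) =
        H * Nat.totient M := by
    intro y _
    have h2 : ∑ a ∈ Ioc A (A + H * M), (if Int.gcd (a + y * D) M = 1 then 1 else 0) =
        ∑ b ∈ Ioc (A + y * D) (A + y * D + H * M), (if Int.gcd b M = 1 then 1 else 0) := by
      apply Finset.sum_bij (fun a _ => a + y * D)
      · intro a ha
        rw [mem_Ioc] at ha ⊢
        constructor <;> linarith
      · intro a _ b _ h
        simpa using h
      · intro b hb
        rw [mem_Ioc] at hb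
        exact ⟨b - y * D, mem_Ioc.2 (by constructor <;> linarith), by ring⟩
      · intro a _
        rfl
    rw [h2, ← card_filter]
    exact card_EE hM _ _
  rw [Finset.sum_congr rfl h1, Finset.sum_const, smul_eq_mul]
  have h3 : ((range M).filter (fun y : ℕ => Nat.Coprime y M)).card = Nat.totient M := by
    rw [Nat.totient]
    congr 1
    apply Finset.filter_congr
    intro y _
    rw [Nat.coprime_comm]
  rw [h3]
  ring

open Classical in
/-- the number of the pairs `(b, b')` of two classes for which `b' - D b` has a property -/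
theorem pair_le {M : ℕ} (hM : 0 < M) (G : ℤ → Prop) (D A A' : ℤ) (K K' R : ℕ)
    (hR : ∀ b ∈ Ioc A (A + K * M), |D * b| ≤ R) :
    (∑ b ∈ EE M A K, ∑ b' ∈ EE M A' K', (if G (b' - D * b) then 1 else 0)) ≤
      K * ∑ a ∈ (Ioc A' (A' + K' * M)).filter G, wt M a D + K * Nat.totient M * R := by
  have h1 : ∀ b ∈ EE M A K, ∑ b' ∈ EE M A' K', (if G (b' - D * b) then 1 else 0) ≤
      (∑ a ∈ (Ioc A' (A' + K' * M)).filter G, (if Int.gcd (a + D * b) M = 1 then 1 else 0)) + R := by
    intro b hb
    have hRb := hR b (mem_filter.1 hb).1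
    rw [← card_filter, ← card_filter]
    have h2 : (EE M A' K').filter (fun b' => G (b' - D * b)) ⊆
        (((Ioc A' (A' + K' * M)).filter G).filter (fun a => Int.gcd (a + D * b) M = 1)).image
          (fun a => a + D * b) ∪
        (Ioc A' (A' + K' * M)).filter (fun b' => b' - D * b ∉ Ioc A' (A' + K' * M)) := by
      intro b' hb'
      obtain ⟨h3, h4⟩ := mem_filter.1 hb'
      obtain ⟨h5, h6⟩ := mem_filter.1 h3
      by_cases h7 : b' - D * b ∈ Ioc A' (A' + K' * M)
      · apply mem_union_left
        refine mem_image.2 ⟨b' - D * b, mem_filter.2 ⟨mem_filter.2 ⟨h7, h4⟩, ?_⟩, by ring⟩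
        have : b' - D * b + D * b = b' := by ring
        rw [this]
        exact h6
      · exact mem_union_right _ (mem_filter.2 ⟨h5, h7⟩)
    have h8 : ((Ioc A' (A' + K' * M)).filter (fun b' => b' - D * b ∉ Ioc A' (A' + K' * M))).card
        ≤ R := by
      rcases le_total 0 (D * b) with h9 | h9
      · have h10 : (Ioc A' (A' + K' * M)).filter (fun b' => b' - D * b ∉ Ioc A' (A' + K' * M)) ⊆
            Ioc A' (A' + D * b) := by
          intro x hx
          rw [mem_filter, mem_Ioc, mem_Ioc] at hx
          rw [mem_Ioc]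
          refine ⟨hx.1.1, ?_⟩
          by_contra hcon
          push Not at hcon
          exact hx.2 ⟨by linarith, by linarith [hx.1.2]⟩
        refine (card_le_card h10).trans ?_
        rw [Int.card_Ioc]
        have h11 := abs_le.1 hRb
        omega
      · have h10 : (Ioc A' (A' + K' * M)).filter (fun b' => b' - D * b ∉ Ioc A' (A' + K' * M)) ⊆
            Ioc (A' + K' * M + D * b) (A' + K' * M) := by
          intro x hx
          rw [mem_filter, mem_Ioc, mem_Ioc] at hx
          rw [mem_Ioc]
          refine ⟨?_, hx.1.2⟩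
          by_contra hcon
          push Not at hcon
          exact hx.2 ⟨by linarith [hx.1.1], by linarith⟩
        refine (card_le_card h10).trans ?_
        rw [Int.card_Ioc]
        have h11 := abs_le.1 hRb
        omega
    exact ((card_le_card h2).trans (card_union_le _ _)).trans
      (Nat.add_le_add card_image_le h8)
  refine (Finset.sum_le_sum h1).trans ?_
  rw [Finset.sum_add_distrib, Finset.sum_const, smul_eq_mul, card_EE hM, Finset.sum_comm]
  apply Nat.add_le_add_right
  rw [Finset.mul_sum]
  apply Finset.sum_le_sum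
  intro a _
  rw [← card_filter, card_both hM]

end Pool.Agent.R493.OT
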