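import Mathlib
import Pool.Agent.R493.OT.Comb
import Pool.Agent.R493.OT.Wt
/-!
# The sum of the shares is almost at least the number of Turan in every long interval
-/

namespace Pool.Agent.R493.OT

open Finset Filter Topology

open Classical in
/-- the weight of the `a` in an interval with a property -/
noncomputable def sh (M : ℕ) (G : ℤ → ℤ → Prop) (D A : ℤ) (H : ℕ) : ℕ :=
  ∑ a ∈ (Ioc A (A + H * M)).filter (fun a => G a D), wt M a D

open Classical in
theorem sh_le {M : ℕ} (hM : 0 < M) (G : ℤ → ℤ → Prop) (D A : ℤ) (H : ℕ) :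
    sh M G D A H ≤ H * Nat.totient M ^ 2 := by
  rw [← sum_wt hM D A H]
  unfold sh
  exact Finset.sum_le_sum_of_subset (filter_subset _ _)

open Classical in
theorem core {M : ℕ} (hM : 0 < M) (m K : ℕ) (Q : Fin m → Fin m → ℤ) (G : ℤ → ℤ → Prop)
    (h4 : ∀ t : Finset (Fin m), t.card = 4 → ∀ A : Fin m → Fin K → ℤ,
      (∀ i, Function.Injective (A i)) → (∀ i k, Int.gcd (A i k) M = 1) →
      ∃ i ∈ t, ∃ j ∈ t, i < j ∧ ∃ k k', G (A j k' - Q i j * A i k) (Q i j))
    (ε : ℝ) (hε : 0 < ε) : ∃ L : ℕ, ∀ (A : ℤ) (H : ℕ), L ≤ H →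
      ((tur m : ℝ) - ε) * (H * (Nat.totient M : ℝ) ^ 2) ≤
        ∑ p ∈ prs m, (sh M G (Q p.1 p.2) A H : ℝ) := by
  by_contra hcon
  push Not at hcon
  choose A H hLH hbad using hcon
  have hφ : 0 < Nat.totient M := Nat.totient_pos.2 hM
  have hφr : (0 : ℝ) < Nat.totient M := by exact_mod_cast hφ
  -- the shares
  set s : Fin m × Fin m → ℕ → ℝ := fun p L =>
    (sh M G (Q p.1 p.2) (A L) (H L) : ℝ) / (H L * (Nat.totient M : ℝ) ^ 2) with hs
  have hs01 : ∀ p L, s p L ∈ Set.Icc (0 : ℝ) 1 := by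
    intro p L
    refine ⟨by positivity, ?_⟩
    apply div_le_one_of_le₀ _ (by positivity)
    exact_mod_cast sh_le hM G (Q p.1 p.2) (A L) (H L)
  have hlim : ∀ p : Fin m × Fin m, ∃ c : ℝ,
      Tendsto (s p) ((hyperfilter ℕ : Ultrafilter ℕ) : Filter ℕ) (𝓝 c) := by
    intro p
    have h1 : ((hyperfilter ℕ).map (s p) : Filter ℝ) ≤ 𝓟 (Set.Icc (0 : ℝ) 1) := by
      rw [le_principal_iff, Ultrafilter.coe_map]
      exact Filter.mem_map.2 (Filter.univ_mem' (hs01 p))
    obtain ⟨c, _, hc⟩ := isCompact_Icc.ultrafilter_le_nhds ((hyperfilter ℕ).map (s p)) h1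
    exact ⟨c, hc⟩
  choose c hc using hlim
  set U : Filter ℕ := ((hyperfilter ℕ : Ultrafilter ℕ) : Filter ℕ) with hU
  have hUtop : U ≤ atTop := by
    rw [hU, ← Nat.cofinite_eq_atTop]
    exact hyperfilter_le_cofinite
  set q : ℝ := ((prs m).card : ℝ) + 1 with hq
  have hq0 : 0 < q := by positivity
  set η : ℝ := ε / (4 * q) with hη
  have hη0 : 0 < η := by positivity
  obtain ⟨N, hN1, hN⟩ := dens m K (δ := ε / 4) (by positivity)
  -- the bound for the class `L`
  set B : ℕ → ℝ := fun L => ∑ p ∈ prs m, |(Q p.1 p.2 : ℝ)| * (|(A L : ℝ)| + H L * M) + 1 with hB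
  obtain ⟨f, hf1, hf2⟩ := exists_seq_of_forall_finset_exists
    (fun L : ℕ => (∀ p ∈ prs m, |s p L - c p| < η) ∧ N + 1 ≤ H L)
    (fun L L' : ℕ => B L ≤ η * (H L' * Nat.totient M)) (by
      intro S _
      have e1 : ∀ᶠ L in U, ∀ p ∈ prs m, |s p L - c p| < η := by
        rw [Filter.eventually_all_finset]
        intro p _
        have := (hc p).eventually (Metric.ball_mem_nhds (c p) hη0)
        filter_upwards [this] with L hL
        rwa [← Real.dist_eq]
      have e2 : ∀ᶠ L in U, N + 1 ≤ H L := by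
        apply hUtop
        filter_upwards [eventually_ge_atTop (N + 1)] with L hL
        exact hL.trans (hLH L)
      have e3 : ∀ᶠ L' in U, ∀ L ∈ S, B L ≤ η * (H L' * Nat.totient M) := by
        rw [Filter.eventually_all_finset]
        intro L _
        apply hUtop
        have h1 : Tendsto (fun L' : ℕ => η * ((L' : ℝ) * Nat.totient M)) atTop atTop :=
          Tendsto.const_mul_atTop hη0 (Tendsto.atTop_mul_const hφr tendsto_natCast_atTop_atTop)
        filter_upwards [h1.eventually_ge_atTop (B L)] with L' hL'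
        refine hL'.trans ?_
        have h2 : (L' : ℝ) ≤ H L' := by exact_mod_cast hLH L'
        gcongr
      obtain ⟨L, h1, h2, h3⟩ := (e1.and (e2.and e3)).exists
      exact ⟨L, ⟨h1, h2⟩, h3⟩)
  have hHpos : ∀ n, (0 : ℝ) < H (f n) := fun n => by
    have := (hf1 n).2
    exact_mod_cast (by omega : 0 < H (f n))
  -- the classes
  have hcard : ∀ i : Fin m, N ≤ (EE M (A (f i)) (H (f i))).card := by
    intro i
    rw [card_EE hM]
    have h1 := (hf1 i).2
    calc N ≤ H (f i) * 1 := by omega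
      _ ≤ _ := Nat.mul_le_mul_left _ hφ
  have hmain := hN ℤ (fun i j a b => G (b - Q i j * a) (Q i j))
    (fun i => EE M (A (f i)) (H (f i))) hcard (by
      intro t ht A' hA' hmem
      exact h4 t ht A' hA' (fun i k => (mem_filter.1 (hmem i k)).2))
  -- the count for one pair
  have hpair : ∀ p ∈ prs m,
      ((∑ a ∈ EE M (A (f p.1)) (H (f p.1)), ∑ b ∈ EE M (A (f p.2)) (H (f p.2)),
        (if G (b - Q p.1 p.2 * a) (Q p.1 p.2) then (1 : ℝ) else 0)) /
        (((EE M (A (f p.1)) (H (f p.1))).card : ℝ) * ((EE M (A (f p.2)) (H (f p.2))).card : ℝ))) ≤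
      c p + 2 * η := by
    intro p hp
    have hlt : (p.1 : ℕ) < p.2 := by
      have := (mem_filter.1 hp).2
      exact this
    have hr := hf2 _ _ hlt
    obtain ⟨R, hR⟩ := exists_nat_ge (B (f p.1))
    -- a natural bound
    set R0 : ℕ := (Q p.1 p.2).natAbs * ((A (f p.1)).natAbs + H (f p.1) * M) with hR0
    have hRb : ∀ b ∈ Ioc (A (f p.1)) (A (f p.1) + H (f p.1) * M), |Q p.1 p.2 * b| ≤ R0 := by
      intro b hb
      rw [mem_Ioc] at hb
      rw [abs_mul, hR0]
      push_cast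
      apply mul_le_mul_of_nonneg_left _ (abs_nonneg _)
      have h1 : (0 : ℤ) ≤ H (f p.1) * M := by positivity
      rcases abs_cases b with ⟨h2, _⟩ | ⟨h2, _⟩ <;> rcases abs_cases (A (f p.1)) with ⟨h3, _⟩ | ⟨h3, _⟩ <;>
        rw [h2, h3] <;> linarith
    have h1 := pair_le hM (fun a => G a (Q p.1 p.2)) (Q p.1 p.2) (A (f p.1)) (A (f p.2))
      (H (f p.1)) (H (f p.2)) R0 hRb
    have h2 : (∑ a ∈ EE M (A (f p.1)) (H (f p.1)), ∑ b ∈ EE M (A (f p.2)) (H (f p.2)),
        (if G (b - Q p.1 p.2 * a) (Q p.1 p.2) then (1 : ℝ) else 0)) ≤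
        H (f p.1) * (sh M G (Q p.1 p.2) (A (f p.2)) (H (f p.2)) : ℝ) +
          H (f p.1) * Nat.totient M * R0 := by
      have h3 : (((∑ a ∈ EE M (A (f p.1)) (H (f p.1)), ∑ b ∈ EE M (A (f p.2)) (H (f p.2)),
        (if G (b - Q p.1 p.2 * a) (Q p.1 p.2) then 1 else 0) : ℕ)) : ℝ) ≤
        ((H (f p.1) * sh M G (Q p.1 p.2) (A (f p.2)) (H (f p.2)) +
          H (f p.1) * Nat.totient M * R0 : ℕ) : ℝ) := by
        exact_mod_cast h1
      push_cast at h3
      exact h3
    have hR0B : (R0 : ℝ) ≤ B (f p.1) := by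
      have h3 : (R0 : ℝ) = |(Q p.1 p.2 : ℝ)| * (|(A (f p.1) : ℝ)| + H (f p.1) * M) := by
        rw [hR0]
        push_cast
        rw [Nat.cast_natAbs, Nat.cast_natAbs]
        push_cast
        rfl
      rw [h3, hB]
      simp only
      have h4' := Finset.single_le_sum
        (f := fun p : Fin m × Fin m => |(Q p.1 p.2 : ℝ)| * (|(A (f p.1) : ℝ)| + H (f p.1) * M))
        (s := prs m) (fun _ _ => by positivity) hp
      have h5 := Finset.single_le_sum
        (f := fun p' : Fin m × Fin m => |(Q p'.1 p'.2 : ℝ)| * (|(A (f p.1) : ℝ)| + H (f p.1) * M))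
        (s := prs m) (fun _ _ => by positivity) hp
      linarith
    rw [card_EE hM, card_EE hM]
    push_cast
    rw [div_le_iff₀ (by have := hHpos p.1; have := hHpos p.2; positivity)]
    refine h2.trans ?_
    have h6 : (sh M G (Q p.1 p.2) (A (f p.2)) (H (f p.2)) : ℝ) =
        s p (f p.2) * (H (f p.2) * (Nat.totient M : ℝ) ^ 2) := by
      rw [hs]
      simp only
      rw [div_mul_cancel₀]
      have := hHpos p.2
      positivity
    have h7 : s p (f p.2) ≤ c p + η := by
      have := (abs_lt.1 ((hf1 p.2).1 p hp)).2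
      linarith
    have h8 : (R0 : ℝ) ≤ η * (H (f p.2) * Nat.totient M) := hR0B.trans hr
    rw [h6]
    have h9 : s p (f p.2) * (H (f p.2) * (Nat.totient M : ℝ) ^ 2) ≤
        (c p + η) * (H (f p.2) * (Nat.totient M : ℝ) ^ 2) := by
      apply mul_le_mul_of_nonneg_right h7
      have := hHpos p.2
      positivity
    have h10 : (Nat.totient M : ℝ) * R0 ≤ Nat.totient M * (η * (H (f p.2) * Nat.totient M)) :=
      mul_le_mul_of_nonneg_left h8 hφr.le
    have h11 := hHpos p.1
    calc _ = (H (f p.1) : ℝ) * (s p (f p.2) * (H (f p.2) * (Nat.totient M : ℝ) ^ 2) +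
          Nat.totient M * R0) := by ring
      _ ≤ (H (f p.1) : ℝ) * ((c p + η) * (H (f p.2) * (Nat.totient M : ℝ) ^ 2) +
          Nat.totient M * (η * (H (f p.2) * Nat.totient M))) := by
          apply mul_le_mul_of_nonneg_left _ h11.le
          linarith
      _ = _ := by ring
  have hsum := Finset.sum_le_sum hpair
  have hb := hbad (f 0)
  have h12 : ∑ p ∈ prs m, (sh M G (Q p.1 p.2) (A (f 0)) (H (f 0)) : ℝ) =
      (∑ p ∈ prs m, s p (f 0)) * (H (f 0) * (Nat.totient M : ℝ) ^ 2) := by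
    rw [Finset.sum_mul]
    apply Finset.sum_congr rfl
    intro p _
    rw [hs]
    simp only
    rw [div_mul_cancel₀]
    have := hHpos 0
    positivity
  rw [h12] at hb
  have h13 : ∑ p ∈ prs m, s p (f 0) < (tur m : ℝ) - ε := by
    have h0 : (0 : ℝ) < H (f 0) * (Nat.totient M : ℝ) ^ 2 := by
      have := hHpos 0
      positivity
    exact lt_of_mul_lt_mul_right hb h0.le
  have h14 : ∑ p ∈ prs m, (c p - η) ≤ ∑ p ∈ prs m, s p (f 0) := by
    apply Finset.sum_le_sum
    intro p hp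
    have := (abs_lt.1 ((hf1 0).1 p hp)).1
    linarith
  rw [Finset.sum_sub_distrib, Finset.sum_const, nsmul_eq_mul] at h14
  rw [Finset.sum_add_distrib, Finset.sum_const, nsmul_eq_mul] at hsum
  have h15 : 4 * (q * η) = ε := by
    rw [hη]
    field_simp
  have h16 : ((prs m).card : ℝ) * η = q * η - η := by rw [hq]; ring
  have h17 : ((prs m).card : ℝ) * (2 * η) = 2 * (q * η) - 2 * η := by rw [hq]; ring
  linarith [hmain, hsum, h13, h14]

end Pool.Agent.R493.OT
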