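import Mathlib
import Pool.Agent.R493.OT.Core
/-!
# One third of the pairs, slopes in a multiplicatively invariant finite set
-/

namespace Pool.Agent.R493.OT

open Finset Filter Topology

theorem tur_lower (m : ℕ) : ((m : ℝ) * (m - 3)) / 6 ≤ tur m := by
  have h1 : (m.choose 2 : ℝ) = m * (m - 1) / 2 := Nat.cast_choose_two ℝ m
  have hcast : ∀ a : ℕ, (a.choose 2 : ℝ) = a * (a - 1) / 2 := fun a => Nat.cast_choose_two ℝ a
  unfold tur
  push_cast
  rw [hcast, hcast, hcast]
  have h2 : m / 3 + (m + 1) / 3 + (m + 2) / 3 = m := by omega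
  have h3 : ((m / 3 : ℕ) : ℝ) + ((m + 1) / 3 : ℕ) + ((m + 2) / 3 : ℕ) = m := by exact_mod_cast h2
  set x : ℝ := ((m / 3 : ℕ) : ℝ)
  set y : ℝ := (((m + 1) / 3 : ℕ) : ℝ)
  set z : ℝ := (((m + 2) / 3 : ℕ) : ℝ)
  rw [← h3]
  nlinarith [sq_nonneg (x - y), sq_nonneg (y - z), sq_nonneg (x - z)]

theorem card_prs (m : ℕ) : ((prs m).card : ℝ) = m * (m - 1) / 2 := by
  have h1 := tur_arith m
  rw [← Nat.cast_choose_two ℝ m]
  congr 1
  classical
  unfold prs
  have e : ((univ : Finset (Fin m × Fin m)).filter (fun p => p.1 < p.2)).card =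
      ((univ : Finset (Fin m)).powersetCard 2).card := by
    apply Finset.card_bij (fun p _ => ({p.1, p.2} : Finset (Fin m)))
    · intro p hp
      have hlt : p.1 < p.2 := (mem_filter.1 hp).2
      rw [mem_powersetCard]
      exact ⟨subset_univ _, card_pair hlt.ne⟩
    · intro p hp p' hp' he
      have hlt : p.1 < p.2 := (mem_filter.1 hp).2
      have hlt' : p'.1 < p'.2 := (mem_filter.1 hp').2
      have a1 : p.1 ∈ ({p'.1, p'.2} : Finset (Fin m)) := by rw [← he]; simp
      have a2 : p.2 ∈ ({p'.1, p'.2} : Finset (Fin m)) := by rw [← he]; simp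
      rw [mem_insert, mem_singleton] at a1 a2
      rcases a1 with a1 | a1 <;> rcases a2 with a2 | a2
      · rw [a1, a2] at hlt; exact absurd hlt (lt_irrefl _)
      · exact Prod.ext a1 a2
      · rw [a1, a2] at hlt; exact absurd hlt (not_lt.2 hlt'.le)
      · rw [a1, a2] at hlt; exact absurd hlt (lt_irrefl _)
    · intro t ht
      rw [mem_powersetCard] at ht
      obtain ⟨x, y, hxy, rfl⟩ := card_eq_two.1 ht.2
      rcases lt_or_gt_of_ne hxy with h | h
      · exact ⟨(x, y), mem_filter.2 ⟨mem_univ _, h⟩, rfl⟩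
      · exact ⟨(y, x), mem_filter.2 ⟨mem_univ _, h⟩, pair_comm _ _⟩
  rw [e, card_powersetCard, card_univ, Fintype.card_fin]

/-- the relation between the forms `a`, `b` (slope and constant term) -/
def Rel2 (G : ℤ → ℤ → Prop) (a b : ℕ × ℤ) : Prop :=
  ¬ a.1 ∣ b.1 ∨ G (b.2 - (b.1 / a.1 : ℕ) * a.2) (b.1 / a.1 : ℕ)

open Classical in
/-- the pairs of two classes `F × EE M A H`, `F' × EE M A' H'` -/
theorem pair_le2 {M : ℕ} (hM : 0 < M) (G : ℤ → ℤ → Prop) (F F' : Finset ℕ) (A A' : ℤ) (H H' R : ℕ)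
    (hF : ∀ s ∈ F, 0 < s) (X : ℝ)
    (hX : ∀ s ∈ F, (F'.card : ℝ) - X ≤ ((F'.filter (fun D => s * D ∈ F')).card : ℝ))
    (hR : ∀ D ∈ F', ∀ b ∈ Ioc A (A + H * M), |(D : ℤ) * b| ≤ R) :
    (∑ a ∈ F ×ˢ EE M A H, ∑ b ∈ F' ×ˢ EE M A' H',
      (if Rel2 G a b then (1 : ℝ) else 0)) ≤
      F.card * (∑ D ∈ F', ((H : ℝ) * sh M G D A' H' + H * Nat.totient M * R)) +
        F.card * (H * Nat.totient M) * (X * (H' * Nat.totient M)) := by
  have hE : ((EE M A H).card : ℝ) = H * Nat.totient M := by rw [card_EE hM]; push_cast; ring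
  have hE' : ((EE M A' H').card : ℝ) = H' * Nat.totient M := by rw [card_EE hM]; push_cast; ring
  -- for one form
  have h1 : ∀ s ∈ F, ∀ b ∈ EE M A H, ∑ y ∈ F' ×ˢ EE M A' H',
      (if Rel2 G (s, b) y then (1 : ℝ) else 0) ≤
      (∑ D ∈ F', ∑ b' ∈ EE M A' H', (if G (b' - (D : ℤ) * b) D then (1 : ℝ) else 0)) +
        X * (H' * Nat.totient M) := by
    intro s hs b hb
    have hs0 := hF s hs
    rw [Finset.sum_product]
    set F1 := F'.filter (fun D => s * D ∈ F') with hF1
    set F2 := F1.image (fun D => s * D) with hF2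
    have hsub : F2 ⊆ F' := by
      intro y hy
      obtain ⟨D, hD, rfl⟩ := mem_image.1 hy
      exact (mem_filter.1 hD).2
    have hinj : Function.Injective (fun D : ℕ => s * D) := fun x y h => Nat.eq_of_mul_eq_mul_left hs0 h
    have hc2 : F2.card = F1.card := card_image_of_injective _ hinj
    rw [← Finset.sum_sdiff hsub, add_comm]
    apply add_le_add
    · rw [hF2, Finset.sum_image (fun x _ y _ h => hinj h)]
      have h2 : ∀ D ∈ F1, ∑ b' ∈ EE M A' H', (if Rel2 G (s, b) (s * D, b') then (1 : ℝ) else 0) =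
          ∑ b' ∈ EE M A' H', (if G (b' - (D : ℤ) * b) D then (1 : ℝ) else 0) := by
        intro D _
        apply Finset.sum_congr rfl
        intro b' _
        have h3 : Rel2 G (s, b) (s * D, b') ↔ G (b' - (D : ℤ) * b) D := by
          unfold Rel2
          simp only
          rw [Nat.mul_div_cancel_left D hs0]
          constructor
          · rintro (h | h)
            · exact absurd (dvd_mul_right s D) h
            · exact h
          · exact Or.inr
        simp only [h3]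
      rw [Finset.sum_congr rfl h2]
      apply Finset.sum_le_sum_of_subset_of_nonneg (filter_subset _ _)
      intro D _ _
      apply Finset.sum_nonneg
      intro b' _
      split_ifs <;> norm_num
    · have h2 : ∀ y ∈ F' \ F2, ∑ b' ∈ EE M A' H', (if Rel2 G (s, b) (y, b') then (1 : ℝ) else 0) ≤ H' * Nat.totient M := by
        intro y _
        rw [← hE', ← nsmul_one ((EE M A' H').card), ← Finset.sum_const]
        apply Finset.sum_le_sum
        intro b' _
        split_ifs <;> norm_num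
      refine (Finset.sum_le_sum h2).trans ?_
      rw [Finset.sum_const, nsmul_eq_mul]
      apply mul_le_mul_of_nonneg_right _ (by positivity)
      have h3 : ((F' \ F2).card : ℝ) = F'.card - F1.card := by
        rw [← hc2, Finset.card_sdiff_of_subset hsub, Nat.cast_sub (card_le_card hsub)]
      rw [h3]
      have := hX s hs
      linarith
  -- sum over the first class
  rw [Finset.sum_product]
  have h4 : ∀ s ∈ F, ∑ b ∈ EE M A H, ∑ y ∈ F' ×ˢ EE M A' H',
      (if Rel2 G (s, b) y then (1 : ℝ) else 0) ≤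
      (∑ D ∈ F', ((H : ℝ) * sh M G D A' H' + H * Nat.totient M * R)) +
        (H * Nat.totient M) * (X * (H' * Nat.totient M)) := by
    intro s hs
    refine (Finset.sum_le_sum (h1 s hs)).trans ?_
    rw [Finset.sum_add_distrib, Finset.sum_const, nsmul_eq_mul, hE, Finset.sum_comm]
    apply add_le_add_left
    apply Finset.sum_le_sum
    intro D hD
    have h5 := pair_le hM (fun a => G a D) (D : ℤ) A A' H H' R (hR D hD)
    have h6 : (((∑ b ∈ EE M A H, ∑ b' ∈ EE M A' H', (if G (b' - D * b) D then 1 else 0) : ℕ)) : ℝ) ≤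
      ((H * sh M G D A' H' + H * Nat.totient M * R : ℕ) : ℝ) := by exact_mod_cast h5
    push_cast at h6
    exact h6
  refine (Finset.sum_le_sum h4).trans ?_
  rw [Finset.sum_const, nsmul_eq_mul]
  apply le_of_eq
  ring

open Classical in
theorem core2 {M : ℕ} (hM : 0 < M) (K : ℕ) (G : ℤ → ℤ → Prop)
    (h4 : ∀ (m : ℕ) (t : Finset (Fin m)), t.card = 4 → ∀ A : Fin m → Fin K → ℕ × ℤ,
      (∀ i, Function.Injective (A i)) →
      (∀ i k, 0 < (A i k).1 ∧ (∃ e : ℕ, (A i k).1 ∣ M ^ e) ∧ Int.gcd (A i k).2 M = 1) →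
      ∃ i ∈ t, ∃ j ∈ t, i < j ∧ ∃ k k', ¬ (A i k).1 ∣ (A j k').1 ∨
        G ((A j k').2 - ((A j k').1 / (A i k).1 : ℕ) * (A i k).2) ((A j k').1 / (A i k).1 : ℕ))
    (ε : ℝ) (hε : 0 < ε) : ∃ n : ℕ, ∀ F : Finset ℕ, F.Nonempty →
      (∀ D ∈ F, 0 < D ∧ ∃ e : ℕ, D ∣ M ^ e) →
      (∀ s ≤ n, (∃ e : ℕ, s ∣ M ^ e) →
        (1 - 1 / (n : ℝ)) * F.card ≤ ((F.filter (fun D => s * D ∈ F)).card : ℝ)) →
      ∀ (A : ℤ) (H : ℕ), (∀ D ∈ F, n * D ≤ H) →
      (1 / 3 - ε) * (F.card * (H * (Nat.totient M : ℝ) ^ 2)) ≤ ∑ D ∈ F, (sh M G D A H : ℝ) := by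
  by_contra hcon
  push Not at hcon
  choose F hFne hFM hFinv A H hFH hbad using hcon
  have hφ : 0 < Nat.totient M := Nat.totient_pos.2 hM
  have hφr : (0 : ℝ) < Nat.totient M := by exact_mod_cast hφ
  -- the number of the classes
  obtain ⟨m, hm⟩ := exists_nat_gt (4 / ε + 4)
  have hm4 : (4 : ℝ) < m := by
    have : 0 < 4 / ε := by positivity
    linarith
  obtain ⟨N, hN1, hN⟩ := dens m K (δ := 1) one_pos
  set η : ℝ := ε / 4 with hη
  have hη0 : 0 < η := by positivity
  set Bd : ℕ → ℕ := fun n => (A n).natAbs + H n * M + (F n).sup id with hBd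
  obtain ⟨f, hf1, hf2⟩ := exists_seq_of_forall_finset_exists
    (fun n : ℕ => N + 1 ≤ n)
    (fun n n' : ℕ => Bd n ≤ n' ∧ (1 / (n' : ℝ)) ≤ η ∧ (Bd n : ℝ) ≤ η * n') (by
      intro S _
      have e1 : ∀ᶠ n' : ℕ in atTop, ∀ n ∈ S,
          (Bd n ≤ n' ∧ (1 / (n' : ℝ)) ≤ η ∧ (Bd n : ℝ) ≤ η * n') := by
        rw [Filter.eventually_all_finset]
        intro n _
        have t1 : Tendsto (fun n' : ℕ => η * (n' : ℝ)) atTop atTop :=
          Tendsto.const_mul_atTop hη0 tendsto_natCast_atTop_atTop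
        filter_upwards [eventually_ge_atTop (Bd n), t1.eventually_ge_atTop (Bd n : ℝ),
          t1.eventually_ge_atTop 1, eventually_ge_atTop 1] with n' h1 h2 h3 h5
        refine ⟨h1, ?_, h2⟩
        have h6 : (0 : ℝ) < n' := by exact_mod_cast h5
        rw [div_le_iff₀ h6]
        exact h3
      obtain ⟨n, h1, h2⟩ := ((eventually_ge_atTop (N + 1)).and e1).exists
      exact ⟨n, h1, h2⟩)
  have hHpos : ∀ n, N + 1 ≤ n → N + 1 ≤ H n := by
    intro n hn
    obtain ⟨D, hD⟩ := hFne n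
    have h1 := hFH n D hD
    have h2 := (hFM n D hD).1
    nlinarith
  have hHr : ∀ i, (0 : ℝ) < H (f i) := fun i => by
    have := hHpos _ (hf1 i)
    exact_mod_cast (by omega : 0 < H (f i))
  have hFr : ∀ i, (0 : ℝ) < (F (f i)).card := fun i => by
    exact_mod_cast (hFne (f i)).card_pos
  have hcardV : ∀ i, (((F (f i)) ×ˢ EE M (A (f i)) (H (f i))).card : ℝ) =
      (F (f i)).card * (H (f i) * Nat.totient M) := by
    intro i
    rw [card_product, card_EE hM]
    push_cast
    ring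
  have hmain := hN (ℕ × ℤ) (fun i j a b => Rel2 G a b)
    (fun i => (F (f i)) ×ˢ EE M (A (f i)) (H (f i))) (by
      intro i
      rw [card_product, card_EE hM]
      have h1 := hHpos _ (hf1 i)
      have h2 := (hFne (f i)).card_pos
      calc N ≤ 1 * (H (f i) * 1) := by omega
        _ ≤ _ := Nat.mul_le_mul h2 (Nat.mul_le_mul_left _ hφ)) (by
      intro t ht A' hA' hmem
      apply h4 m t ht A' hA'
      intro i k
      have h1 := mem_product.1 (hmem i k)
      exact ⟨(hFM _ _ h1.1).1, (hFM _ _ h1.1).2, (mem_filter.1 h1.2).2⟩)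
  have hpair : ∀ p ∈ prs m,
      ((∑ a ∈ (F (f p.1)) ×ˢ EE M (A (f p.1)) (H (f p.1)), ∑ b ∈ (F (f p.2)) ×ˢ EE M (A (f p.2)) (H (f p.2)),
        (if Rel2 G a b then (1 : ℝ) else 0)) /
        ((((F (f p.1)) ×ˢ EE M (A (f p.1)) (H (f p.1))).card : ℝ) *
          (((F (f p.2)) ×ˢ EE M (A (f p.2)) (H (f p.2))).card : ℝ))) ≤ 1 / 3 - ε / 2 := by
    intro p hp
    have hlt : (p.1 : ℕ) < p.2 := (mem_filter.1 hp).2
    obtain ⟨hr1, hr2, hr3⟩ := hf2 _ _ hlt
    set n := f p.1 with hn
    set n' := f p.2 with hn'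
    have hHn : (0 : ℝ) < H n := hHr p.1
    have hHn' : (0 : ℝ) < H n' := hHr p.2
    have hFn : (0 : ℝ) < (F n).card := hFr p.1
    have hFn' : (0 : ℝ) < (F n').card := hFr p.2
    have hn'0 : (0 : ℝ) < n' := by
      have := hf1 (p.2 : ℕ)
      exact_mod_cast (by omega : 0 < n')
    -- the bound for the shifts
    set Dm := (F n').sup id with hDm
    have hDmH : n' * Dm ≤ H n' := by
      obtain ⟨D, hD, hDe⟩ := Finset.exists_mem_eq_sup (F n') (hFne n') id
      rw [hDm, hDe]
      exact hFH n' D hD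
    set R0 : ℕ := Dm * Bd n with hR0
    have hRb : ∀ D ∈ F n', ∀ b ∈ Ioc (A n) (A n + H n * M), |(D : ℤ) * b| ≤ R0 := by
      intro D hD b hb
      rw [mem_Ioc] at hb
      have h1 : D ≤ Dm := Finset.le_sup (f := id) hD
      have h2 : |b| ≤ ((A n).natAbs + H n * M : ℕ) := by
        push_cast
        have h1 : (0 : ℤ) ≤ H n * M := by positivity
        rcases abs_cases b with ⟨h2, _⟩ | ⟨h2, _⟩ <;> rcases abs_cases (A n) with ⟨h3, _⟩ | ⟨h3, _⟩ <;>
          rw [h2, h3] <;> linarith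
      rw [abs_mul, hR0, hBd]
      push_cast
      push_cast at h2
      have h3 : |(D : ℤ)| ≤ Dm := by rw [Nat.abs_cast]; exact_mod_cast h1
      apply mul_le_mul h3 _ (abs_nonneg _) (by positivity)
      have h5 : (0 : ℤ) ≤ ((F n).sup id : ℕ) := by positivity
      linarith
    have h1 := pair_le2 hM G (F n) (F n') (A n) (A n') (H n) (H n') R0
      (fun s hs => (hFM n s hs).1) (1 / (n' : ℝ) * (F n').card) (by
        intro s hs
        have h2 : s ≤ n' := by
          have h3 : s ≤ (F n).sup id := Finset.le_sup (f := id) hs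
          have h4 : (F n).sup id ≤ Bd n := by rw [hBd]; exact Nat.le_add_left _ _
          omega
        have h3 := hFinv n' s h2 (hFM n s hs).2
        linarith) hRb
    rw [hcardV, hcardV, div_le_iff₀ (by positivity)]
    refine h1.trans ?_
    have h2 := hbad n'
    have h3 : (R0 : ℝ) ≤ η * H n' := by
      rw [hR0]
      push_cast
      calc (Dm : ℝ) * Bd n ≤ Dm * (η * n') := mul_le_mul_of_nonneg_left hr3 (by positivity)
        _ = η * (n' * Dm) := by ring
        _ ≤ η * H n' := mul_le_mul_of_nonneg_left (by exact_mod_cast hDmH) hη0.le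
    rw [Finset.sum_add_distrib, ← Finset.mul_sum, Finset.sum_const, nsmul_eq_mul]
    have hφ1 : (1 : ℝ) ≤ Nat.totient M := by exact_mod_cast hφ
    have h5 : (H n : ℝ) * ∑ D ∈ F n', (sh M G D (A n') (H n') : ℝ) ≤
        H n * ((1 / 3 - ε) * ((F n').card * (H n' * (Nat.totient M : ℝ) ^ 2))) :=
      mul_le_mul_of_nonneg_left h2.le hHn.le
    have h6 : ((F n').card : ℝ) * (H n * Nat.totient M * R0) ≤
        (F n').card * (H n * Nat.totient M * (η * H n' * Nat.totient M)) := by
      have : (R0 : ℝ) ≤ η * H n' * Nat.totient M := by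
        have h7 : η * H n' * 1 ≤ η * H n' * Nat.totient M :=
          mul_le_mul_of_nonneg_left hφ1 (by positivity)
        linarith
      gcongr
    have h7 : (1 / (n' : ℝ) * (F n').card) * (H n' * Nat.totient M) ≤
        (η * (F n').card) * (H n' * Nat.totient M) := by gcongr
    have h8 : ((F n).card : ℝ) * ((H n : ℝ) * ∑ D ∈ F n', (sh M G D (A n') (H n') : ℝ) +
        ((F n').card : ℝ) * (H n * Nat.totient M * R0)) ≤
        (F n).card * (H n * ((1 / 3 - ε) * ((F n').card * (H n' * (Nat.totient M : ℝ) ^ 2))) +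
        (F n').card * (H n * Nat.totient M * (η * H n' * Nat.totient M))) :=
      mul_le_mul_of_nonneg_left (add_le_add h5 h6) hFn.le
    have h9 : ((F n).card : ℝ) * (H n * Nat.totient M) * ((1 / (n' : ℝ) * (F n').card) * (H n' * Nat.totient M)) ≤
        (F n).card * (H n * Nat.totient M) * ((η * (F n').card) * (H n' * Nat.totient M)) :=
      mul_le_mul_of_nonneg_left h7 (by positivity)
    refine (add_le_add h8 h9).trans (le_of_eq ?_)
    have h10 : ε = 4 * η := by rw [hη]; ring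
    rw [h10]
    ring
  have hsum := Finset.sum_le_sum hpair
  rw [Finset.sum_const, nsmul_eq_mul, card_prs] at hsum
  have h11 := tur_lower m
  have h12 : (m : ℝ) * (m - 3) / 6 - 1 ≤ m * (m - 1) / 2 * (1 / 3 - ε / 2) := by
    linarith [hmain, hsum]
  have h13 : 4 / ε * ε = 4 := by field_simp
  have h14 : (4 / ε + 4) * ε < m * ε := mul_lt_mul_of_pos_right hm hε
  nlinarith

end Pool.Agent.R493.OT
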