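import Mathlib
import Pool.Agent.Y827.RO.NarF
import Pool.Agent.Y827.GS.FamF
import Pool.Agent.R493.OT.Core
/-!
# Four classes of linear forms contain a pair of forms of different classes which is often prime
-/

namespace Pool.Agent.R493.OT

open Finset Filter
open Pool.Agent.Y827.GS (cntN cntN_anti Adf adf_ev)

/-- Infinitely many primes `q` are such that `a + q D` is prime; moreover, for infinitely many `x`
there are at least `x / (log x) ^ B` such primes `q ≤ x`. -/
def Many (B : ℕ) (a D : ℤ) : Prop :=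
  {q : ℕ | q.Prime ∧ ∃ p : ℕ, p.Prime ∧ a + q * D = p}.Infinite ∧
  ∃ᶠ x : ℕ in atTop, (x : ℝ) / (Real.log x) ^ B ≤
    ({q : ℕ | q ≤ x ∧ q.Prime ∧ ∃ p : ℕ, p.Prime ∧ a + q * D = p}.ncard : ℝ)

theorem infinite_of_freq {B : ℕ} {S : Set ℕ}
    (h : ∃ᶠ x : ℕ in atTop, (x : ℝ) / (Real.log x) ^ B ≤ ({q : ℕ | q ≤ x ∧ q ∈ S}.ncard : ℝ)) :
    S.Infinite := by
  intro hfin
  set c : ℕ := S.ncard with hc
  have h1 : ∀ x : ℕ, {q : ℕ | q ≤ x ∧ q ∈ S}.ncard ≤ c := fun x =>
    Set.ncard_le_ncard (fun q hq => hq.2) hfin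
  have h2 := (Real.isLittleO_pow_log_id_atTop (n := B)).comp_tendsto
    (tendsto_natCast_atTop_atTop (R := ℝ))
  have h3 := h2.def (c := 1 / ((c : ℝ) + 2)) (by positivity)
  apply h
  filter_upwards [h3, eventually_ge_atTop 3] with x hx hx3 hcon
  have h4 : (0 : ℝ) < Real.log x := Real.log_pos (by exact_mod_cast (by omega : 1 < x))
  simp only [Function.comp, id, Real.norm_eq_abs] at hx
  rw [abs_of_nonneg (by positivity), abs_of_nonneg (by positivity)] at hx
  have h5 : (x : ℝ) / (Real.log x) ^ B ≤ c := hcon.trans (by exact_mod_cast h1 x)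
  rw [div_le_iff₀ (by positivity)] at h5
  have h6 : (c : ℝ) * (Real.log x) ^ B ≤ c * (1 / ((c : ℝ) + 2) * x) :=
    mul_le_mul_of_nonneg_left hx (by positivity)
  have h7 : (c : ℝ) * (1 / ((c : ℝ) + 2) * x) < x := by
    have h8 : (c : ℝ) * (1 / ((c : ℝ) + 2)) < 1 := by
      rw [mul_one_div, div_lt_one (by positivity)]
      linarith
    have h9 : (0 : ℝ) < x := by exact_mod_cast (by omega : 0 < x)
    nlinarith
  linarith

open Classical in
/-- from prime values of two forms to prime values of `a + q D` -/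
theorem good_of_cnt {C : ℕ} {s b s' b' Q : ℤ} (hs : 0 < s) (hs' : s' = s * Q)
    {F : Finset (ℤ × ℤ)} (h1 : (s, b) ∈ F) (h2 : (s', b') ∈ F)
    (h : ∃ᶠ N : ℕ in atTop, (N : ℝ) / (Real.log N) ^ C ≤ (cntN F N : ℝ)) :
    Many (C + 1) (b' - Q * b) Q := by
  have key : ∃ᶠ x : ℕ in atTop, (x : ℝ) / (Real.log x) ^ (C + 1) ≤
    ({q : ℕ | q ≤ x ∧ q.Prime ∧ ∃ p : ℕ, p.Prime ∧ b' - Q * b + q * Q = p}.ncard : ℝ) := by
    rw [frequently_atTop] at h ⊢
    intro X₀
    set c : ℕ := s.natAbs + b.natAbs with hc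
    have hl : ∀ᶠ N : ℕ in atTop, (c : ℝ) ≤ Real.log N :=
      (Real.tendsto_log_atTop.comp tendsto_natCast_atTop_atTop).eventually_ge_atTop _
    obtain ⟨N₁, hN₁⟩ := eventually_atTop.1 hl
    obtain ⟨N, hN, hcnt⟩ := h (max (max X₀ N₁) 3)
    have hN3 : 3 ≤ N := (le_max_right _ _).trans hN
    have hNX : X₀ ≤ N := ((le_max_left _ _).trans (le_max_left _ _)).trans hN
    have hlogc := hN₁ N (((le_max_right _ _).trans (le_max_left _ _)).trans hN)
    have hs1 : 1 ≤ s.natAbs := by omega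
    set x : ℕ := s.natAbs * N + b.natAbs with hx
    have hNx : N ≤ x := by
      rw [hx]
      have := Nat.mul_le_mul_right N hs1
      omega
    refine ⟨x, hNX.trans hNx, ?_⟩
    have hxc : x ≤ c * N := by
      rw [hx, hc, Nat.add_mul]
      apply Nat.add_le_add_left
      exact Nat.le_mul_of_pos_right _ (by omega)
    have hinj : cntN F N ≤
        {q : ℕ | q ≤ x ∧ q.Prime ∧ ∃ p : ℕ, p.Prime ∧ b' - Q * b + q * Q = p}.ncard := by
      have hfin : {q : ℕ | q ≤ x ∧ q.Prime ∧ ∃ p : ℕ, p.Prime ∧ b' - Q * b + q * Q = p}.Finite :=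
        (Set.finite_Iic x).subset (fun q hq => hq.1)
      have e1 : cntN F N = (((Icc 1 N).filter (fun n : ℕ => ∀ f ∈ F,
        (f.1 * (n : ℤ) + f.2).toNat.Prime)).image (fun n : ℕ => (s * n + b).toNat)).card := by
        rw [card_image_of_injOn]
        · rfl
        · intro n hn n' hn' he
          rw [mem_coe, mem_filter] at hn hn'
          have hp := hn.2 _ h1
          have hp' := hn'.2 _ h1
          simp only at hp hp' he
          have hpos : 0 < (s * n + b).toNat := hp.pos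
          have hpos' : 0 < (s * n' + b).toNat := hp'.pos
          have h5 : s * n + b = s * n' + b := by omega
          have h6 : s * ((n : ℤ) - n') = 0 := by linarith
          rcases mul_eq_zero.1 h6 with h7 | h7
          · exact absurd h7 hs.ne'
          · omega
      rw [e1, ← Set.ncard_coe_finset]
      apply Set.ncard_le_ncard _ hfin
      intro q hq
      rw [mem_coe, mem_image] at hq
      obtain ⟨n, hn, rfl⟩ := hq
      obtain ⟨hn1, hn2⟩ := mem_filter.1 hn
      have hp := hn2 _ h1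
      have hp' := hn2 _ h2
      simp only at hp hp'
      have hpos : 0 < (s * n + b).toNat := hp.pos
      have hpos' : 0 < (s' * n + b').toNat := hp'.pos
      have e2 : ((s * n + b).toNat : ℤ) = s * n + b := Int.toNat_of_nonneg (by omega)
      have e3 : ((s' * n + b').toNat : ℤ) = s' * n + b' := Int.toNat_of_nonneg (by omega)
      refine ⟨?_, hp, (s' * n + b').toNat, hp', ?_⟩
      · rw [mem_Icc] at hn1
        have h8 : s * (n : ℤ) ≤ s * N := mul_le_mul_of_nonneg_left (by exact_mod_cast hn1.2) hs.le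
        have h9 : (x : ℤ) = s * N + |b| := by
          rw [hx]
          push_cast
          rw [abs_of_pos hs]
        have h10 : b ≤ |b| := le_abs_self b
        zify
        rw [e2, h9]
        linarith
      · rw [e2, e3, hs']
        ring
    have hlogN : (1 : ℝ) ≤ Real.log N := by
      rw [← Real.log_exp 1]
      apply Real.log_le_log (Real.exp_pos 1)
      have := Real.exp_one_lt_d9
      have : (3 : ℝ) ≤ N := by exact_mod_cast hN3
      linarith
    have hlogx : Real.log N ≤ Real.log x := by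
      apply Real.log_le_log (by exact_mod_cast (by omega : 0 < N))
      exact_mod_cast hNx
    have hN0 : (0 : ℝ) < N := by exact_mod_cast (by omega : 0 < N)
    have hlN0 : (0 : ℝ) < Real.log N := by linarith
    have hlx0 : (0 : ℝ) < Real.log x := by linarith
    have h11 : (x : ℝ) / (Real.log x) ^ (C + 1) ≤ N / (Real.log N) ^ C := by
      rw [div_le_div_iff₀ (by positivity) (by positivity)]
      have h12 : (x : ℝ) ≤ c * N := by exact_mod_cast hxc
      have h13 : (Real.log N) ^ (C + 1) ≤ (Real.log x) ^ (C + 1) :=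
        pow_le_pow_left₀ (by linarith) hlogx _
      calc (x : ℝ) * (Real.log N) ^ C ≤ (c * N) * (Real.log N) ^ C :=
            mul_le_mul_of_nonneg_right h12 (by positivity)
        _ ≤ (Real.log N * N) * (Real.log N) ^ C := by gcongr
        _ = N * (Real.log N) ^ (C + 1) := by ring
        _ ≤ N * (Real.log x) ^ (C + 1) := mul_le_mul_of_nonneg_left h13 hN0.le
    refine h11.trans (hcnt.trans ?_)
    exact_mod_cast hinj
  refine ⟨infinite_of_freq (B := C + 1) ?_, key⟩
  exact key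

open Classical in
/-- four classes of `K` forms contain two forms of different classes which are often prime together -/
theorem four_classes : ∃ K : ℕ, 1 ≤ K ∧ ∀ H : Fin 4 → Fin K → ℤ × ℤ,
    Function.Injective (fun x : Fin 4 × Fin K => H x.1 x.2) →
    (∀ g i, 0 < (H g i).1 ∧ IsCoprime (H g i).1 (H g i).2) →
    (∀ p : ℕ, p.Prime → p ≤ 4 * K → ∃ r : ℤ, ∀ g i, ¬ (p : ℤ) ∣ (H g i).1 * r + (H g i).2) →
    ∃ g g', g < g' ∧ ∃ k k', ∃ F : Finset (ℤ × ℤ), H g k ∈ F ∧ H g' k' ∈ F ∧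
      ∃ᶠ N : ℕ in atTop, (N : ℝ) / (Real.log N) ^ (4 * K + 2) ≤ (cntN F N : ℝ) := by
  obtain ⟨K, hK, h⟩ := Pool.Agent.Y827.RO.lamRD 4
  refine ⟨K, hK, fun H hinj hpos hloc => ?_⟩
  obtain ⟨A, hA⟩ := adf_ev (univ.image (fun x : Fin 4 × Fin K => H x.1 x.2)) (by
    intro f hf
    obtain ⟨x, _, rfl⟩ := mem_image.1 hf
    exact hpos _ _)
  have h1 := h (by norm_num) A
  have h2 : ∀ᶠ N : ℕ in atTop, ∃ (P : Finset (Fin 4) × (Fin 4 → Fin K)),
      ((4 : ℕ) : ℝ) ≤ (18 / 5) * (P.1.card : ℝ) ∧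
      (N : ℝ) / (Real.log N) ^ (4 * K + 2) ≤ (cntN (P.1.image (fun g => H g (P.2 g))) N : ℝ) := by
    filter_upwards [h1, hA] with N hN hA
    obtain ⟨S, c, h3, h4⟩ := hN H hinj (fun g i => hA _ (mem_image.2 ⟨(g, i), mem_univ _, rfl⟩)) hloc
    exact ⟨(S, c), h3, h4⟩
  have h3 : ∃ (P : Finset (Fin 4) × (Fin 4 → Fin K)), ∃ᶠ N : ℕ in atTop,
      ((4 : ℕ) : ℝ) ≤ (18 / 5) * (P.1.card : ℝ) ∧
      (N : ℝ) / (Real.log N) ^ (4 * K + 2) ≤ (cntN (P.1.image (fun g => H g (P.2 g))) N : ℝ) := by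
    by_contra hcon
    push Not at hcon
    have h4 : ∀ᶠ N : ℕ in atTop, ∀ P : Finset (Fin 4) × (Fin 4 → Fin K), ¬
      (((4 : ℕ) : ℝ) ≤ (18 / 5) * (P.1.card : ℝ) ∧
      (N : ℝ) / (Real.log N) ^ (4 * K + 2) ≤ (cntN (P.1.image (fun g => H g (P.2 g))) N : ℝ)) := by
      rw [Filter.eventually_all]
      intro P
      filter_upwards [hcon P] with N hN h5
      exact absurd (hN h5.1) (not_lt.2 h5.2)
    obtain ⟨N, ⟨P, hP⟩, hN⟩ := (h2.and h4).exists
    exact hN P hP
  obtain ⟨⟨S, c⟩, hS⟩ := h3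
  have h5 : 1 < S.card := by
    obtain ⟨N, hN, _⟩ := hS.exists
    simp only at hN
    by_contra hle
    push Not at hle
    have : (S.card : ℝ) ≤ 1 := by exact_mod_cast hle
    norm_num at hN
    linarith
  obtain ⟨g, hg, g', hg', hne⟩ := Finset.one_lt_card.1 h5
  have hfr : ∃ᶠ N : ℕ in atTop, (N : ℝ) / (Real.log N) ^ (4 * K + 2) ≤
      (cntN (S.image (fun g => H g (c g))) N : ℝ) := hS.mono (fun N hN => hN.2)
  rcases lt_or_gt_of_ne hne with h6 | h6
  · exact ⟨g, g', h6, c g, c g', _, mem_image.2 ⟨g, hg, rfl⟩, mem_image.2 ⟨g', hg', rfl⟩, hfr⟩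
  · exact ⟨g', g, h6, c g', c g, _, mem_image.2 ⟨g', hg', rfl⟩, mem_image.2 ⟨g, hg, rfl⟩, hfr⟩

open Classical in
/-- Four classes of `K` constant terms prime to `M`, the slopes divide powers of `M`. -/
theorem pairs4 : ∃ B M₀ K : ℕ, 0 < M₀ ∧ ∀ M : ℕ, 0 < M → M₀ ∣ M → ∀ (m : ℕ) (s : Fin m → ℤ)
    (Q : Fin m → Fin m → ℤ), (∀ i, 0 < s i) → (∀ i, ∃ e : ℕ, s i ∣ (M : ℤ) ^ e) →
    (∀ i j, i < j → s j = s i * Q i j) →
    ∀ t : Finset (Fin m), t.card = 4 → ∀ A : Fin m → Fin K → ℤ,
      (∀ i, Function.Injective (A i)) → (∀ i k, Int.gcd (A i k) M = 1) →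
      ∃ i ∈ t, ∃ j ∈ t, i < j ∧ ∃ k k', Int.gcd (A j k' - Q i j * A i k) (Q i j) = 1 ∧
        2 ∣ (A j k' - Q i j * A i k) * Q i j ∧ Many B (A j k' - Q i j * A i k) (Q i j) := by
  obtain ⟨K, hK, h⟩ := four_classes
  refine ⟨4 * K + 2 + 1, (4 * K).factorial, K, Nat.factorial_pos _,
    fun M hM hdvd m s Q hs hsM hQ t ht A hA hAM => ?_⟩
  have hprime : ∀ p : ℕ, p.Prime → p ≤ 4 * K → p ∣ M := fun p hp hle =>
    ((Nat.Prime.dvd_factorial hp).2 hle).trans hdvd
  set e := t.orderEmbOfFin ht with he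
  have hemem : ∀ g, e g ∈ t := fun g => t.orderEmbOfFin_mem ht g
  have hcop : ∀ i k, IsCoprime (A i k) (M : ℤ) := fun i k => by
    rw [Int.isCoprime_iff_gcd_eq_one]
    exact hAM i k
  have hcop2 : ∀ i k, IsCoprime (s i) (A i k) := fun i k => by
    obtain ⟨n, hn⟩ := hsM i
    exact ((hcop i k).pow_right (n := n)).symm.of_isCoprime_of_dvd_left hn
  have hloc0 : ∀ p : ℕ, p.Prime → p ≤ 4 * K → ∀ i k, ¬ (p : ℤ) ∣ A i k := by
    intro p hp hle i k hd
    have h1 : (p : ℤ) ∣ M := by exact_mod_cast hprime p hp hle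
    have h2 := (hcop i k).isUnit_of_dvd' hd h1
    rw [Int.isUnit_iff] at h2
    have := hp.two_le
    omega
  -- the trivial pair
  have hgcd : ∀ i j, i < j → ∀ k k', Int.gcd (A j k' - Q i j * A i k) (Q i j) = 1 := by
    intro i j hij k k'
    rw [← Int.isCoprime_iff_gcd_eq_one]
    have h1 : IsCoprime (Q i j) (A j k') :=
      (hcop2 j k').of_isCoprime_of_dvd_left ⟨s i, by rw [hQ i j hij]; ring⟩
    have h2 : IsCoprime (A j k' + Q i j * (-(A i k))) (Q i j) := by
      rw [IsCoprime.add_mul_left_left_iff]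
      exact h1.symm
    have h3 : A j k' - Q i j * A i k = A j k' + Q i j * (-(A i k)) := by ring
    rw [h3]
    exact h2
  have hodd : ∀ i k, A i k % 2 = 1 := by
    intro i k
    have h1 := hloc0 2 Nat.prime_two (by omega) i k
    norm_num at h1
    omega
  have heven : ∀ i j, i < j → ∀ k k', 2 ∣ (A j k' - Q i j * A i k) * Q i j := by
    intro i j hij k k'
    have h1 := hodd i k
    have h2 := hodd j k'
    rcases Int.even_or_odd (Q i j) with h3 | h3
    · exact (h3.two_dvd).mul_left _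
    · have h4 : Odd (A i k) := Int.odd_iff.2 h1
      have h5 : Odd (A j k') := Int.odd_iff.2 h2
      exact ((h5.sub_odd (h3.mul h4)).two_dvd).mul_right _
  have htriv : Many (4 * K + 2 + 1) 0 1 := by
    obtain ⟨g, g', hlt, k, k', F, hF, hF', hfr⟩ := h
      (fun g i => (1, ((4 * K).factorial : ℤ) * ((finProdFinEquiv (g, i) : Fin (4 * K)) : ℕ) + 1))
      (by
        intro x y hxy
        simp only [Prod.mk.injEq, true_and] at hxy
        have h1 : ((4 * K).factorial : ℤ) ≠ 0 := by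
          exact_mod_cast (Nat.factorial_pos _).ne'
        have h2 := mul_left_cancel₀ h1 (by linarith : ((4 * K).factorial : ℤ) *
          ((finProdFinEquiv (x.1, x.2) : Fin (4 * K)) : ℕ) = ((4 * K).factorial : ℤ) *
          ((finProdFinEquiv (y.1, y.2) : Fin (4 * K)) : ℕ))
        have h3 : (finProdFinEquiv (x.1, x.2) : Fin (4 * K)) = finProdFinEquiv (y.1, y.2) := by
          apply Fin.ext
          exact_mod_cast h2
        exact finProdFinEquiv.injective h3)
      (fun g i => ⟨by norm_num, isCoprime_one_left⟩)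
      (fun p hp hle => ⟨0, fun g i hd => by
        simp only [mul_zero, zero_add] at hd
        have h1 : (p : ℤ) ∣ ((4 * K).factorial : ℤ) := by
          exact_mod_cast (Nat.Prime.dvd_factorial hp).2 hle
        have h2 : (p : ℤ) ∣ 1 := (Int.dvd_add_right (h1.mul_right _)).1 hd
        have h3 := Int.le_of_dvd one_pos h2
        have := hp.two_le
        omega⟩)
    have h1 := good_of_cnt (C := 4 * K + 2) (s := 1) (s' := 1) (Q := 1) one_pos (by norm_num) hF hF hfr
    simpa using h1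
  by_cases hinj : Function.Injective (fun x : Fin 4 × Fin K => (s (e x.1), A (e x.1) x.2))
  · obtain ⟨g, g', hlt, k, k', F, hF, hF', hfr⟩ := h (fun g i => (s (e g), A (e g) i)) hinj
      (fun g i => ⟨hs _, hcop2 _ _⟩)
      (fun p hp hle => ⟨0, fun g i => by
        simp only [mul_zero, zero_add]
        exact hloc0 p hp hle _ _⟩)
    refine ⟨e g, hemem g, e g', hemem g', e.strictMono hlt, k, k',
      hgcd _ _ (e.strictMono hlt) _ _, heven _ _ (e.strictMono hlt) _ _, ?_⟩
    exact good_of_cnt (hs _) (hQ _ _ (e.strictMono hlt)) hF hF' hfr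
  · -- equal forms in different classes
    have hex : ∃ g g', g < g' ∧ ∃ k k', s (e g) = s (e g') ∧ A (e g) k = A (e g') k' := by
      rw [Function.Injective] at hinj
      push Not at hinj
      obtain ⟨x, y, hxy, hne⟩ := hinj
      simp only [Prod.mk.injEq] at hxy
      rcases lt_trichotomy x.1 y.1 with h1 | h1 | h1
      · exact ⟨x.1, y.1, h1, x.2, y.2, hxy⟩
      · exfalso
        apply hne
        have h2 := hxy.2
        rw [h1] at h2
        exact Prod.ext h1 (hA _ h2)
      · exact ⟨y.1, x.1, h1, y.2, x.2, hxy.1.symm, hxy.2.symm⟩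
    obtain ⟨g, g', hlt, k, k', h1, h2⟩ := hex
    refine ⟨e g, hemem g, e g', hemem g', e.strictMono hlt, k, k',
      hgcd _ _ (e.strictMono hlt) _ _, heven _ _ (e.strictMono hlt) _ _, ?_⟩
    have h3 := hQ _ _ (e.strictMono hlt)
    rw [← h1] at h3
    have h4 : Q (e g) (e g') = 1 := by
      have h5 : s (e g) * (Q (e g) (e g') - 1) = 0 := by linarith
      rcases mul_eq_zero.1 h5 with h6 | h6
      · exact absurd h6 (hs _).ne'
      · linarith
    rw [h4, ← h2, one_mul, sub_self]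
    exact htriv

end Pool.Agent.R493.OT
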