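import Mathlib
import Pool.Agent.R493.OT.Pairs
import Pool.Agent.R493.OT.Core2
/-!
# Four classes of linear forms with various slopes
-/

namespace Pool.Agent.R493.OT

open Finset Filter
open Pool.Agent.Y827.GS (cntN cntN_anti Adf adf_ev)

open Classical in
/-- Four classes of `K` forms, the constant terms are prime to `M`, the slopes divide powers of `M`. -/
theorem pairs4s : ∃ B M₀ K : ℕ, 0 < M₀ ∧ ∀ M : ℕ, 0 < M → M₀ ∣ M → ∀ (m : ℕ)
    (t : Finset (Fin m)), t.card = 4 → ∀ A : Fin m → Fin K → ℕ × ℤ,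
      (∀ i, Function.Injective (A i)) →
      (∀ i k, 0 < (A i k).1 ∧ (∃ e : ℕ, (A i k).1 ∣ M ^ e) ∧ Int.gcd (A i k).2 M = 1) →
      ∃ i ∈ t, ∃ j ∈ t, i < j ∧ ∃ k k', ¬ (A i k).1 ∣ (A j k').1 ∨
        (Int.gcd ((A j k').2 - ((A j k').1 / (A i k).1 : ℕ) * (A i k).2)
          ((A j k').1 / (A i k).1 : ℕ) = 1 ∧
        2 ∣ ((A j k').2 - ((A j k').1 / (A i k).1 : ℕ) * (A i k).2) * ((A j k').1 / (A i k).1 : ℕ) ∧
        Many B ((A j k').2 - ((A j k').1 / (A i k).1 : ℕ) * (A i k).2)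
          ((A j k').1 / (A i k).1 : ℕ)) := by
  obtain ⟨K, hK, h⟩ := four_classes
  refine ⟨4 * K + 2 + 1, (4 * K).factorial, K, Nat.factorial_pos _,
    fun M hM hdvd m t ht A hA hAM => ?_⟩
  have hprime : ∀ p : ℕ, p.Prime → p ≤ 4 * K → p ∣ M := fun p hp hle =>
    ((Nat.Prime.dvd_factorial hp).2 hle).trans hdvd
  set e := t.orderEmbOfFin ht with he
  have hemem : ∀ g, e g ∈ t := fun g => t.orderEmbOfFin_mem ht g
  have hcop : ∀ i k, IsCoprime (A i k).2 (M : ℤ) := fun i k => by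
    rw [Int.isCoprime_iff_gcd_eq_one]
    exact (hAM i k).2.2
  have hcop2 : ∀ i k, IsCoprime ((A i k).1 : ℤ) (A i k).2 := fun i k => by
    obtain ⟨n, hn⟩ := (hAM i k).2.1
    exact ((hcop i k).pow_right (n := n)).symm.of_isCoprime_of_dvd_left (by exact_mod_cast hn)
  have hloc0 : ∀ p : ℕ, p.Prime → p ≤ 4 * K → ∀ i k, ¬ (p : ℤ) ∣ (A i k).2 := by
    intro p hp hle i k hd
    have h1 : (p : ℤ) ∣ M := by exact_mod_cast hprime p hp hle
    have h2 := (hcop i k).isUnit_of_dvd' hd h1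
    rw [Int.isUnit_iff] at h2
    have := hp.two_le
    omega
  by_cases hdiv : ∃ g g', g < g' ∧ ∃ k k', ¬ (A (e g) k).1 ∣ (A (e g') k').1
  · obtain ⟨g, g', hlt, k, k', hnd⟩ := hdiv
    exact ⟨e g, hemem g, e g', hemem g', e.strictMono hlt, k, k', Or.inl hnd⟩
  push Not at hdiv
  -- the trivial pair
  have hgcd : ∀ g g', g < g' → ∀ k k', Int.gcd ((A (e g') k').2 -
      ((A (e g') k').1 / (A (e g) k).1 : ℕ) * (A (e g) k).2)
      ((A (e g') k').1 / (A (e g) k).1 : ℕ) = 1 := by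
    intro i j hij k k'
    rw [← Int.isCoprime_iff_gcd_eq_one]
    have h1 : IsCoprime (((A (e j) k').1 / (A (e i) k).1 : ℕ) : ℤ) (A (e j) k').2 :=
      (hcop2 (e j) k').of_isCoprime_of_dvd_left (by
        exact_mod_cast Nat.div_dvd_of_dvd (hdiv i j hij k k'))
    have h2 : IsCoprime ((A (e j) k').2 +
      (((A (e j) k').1 / (A (e i) k).1 : ℕ) : ℤ) * (-(A (e i) k).2))
        (((A (e j) k').1 / (A (e i) k).1 : ℕ) : ℤ) := by
      rw [IsCoprime.add_mul_left_left_iff]
      exact h1.symm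
    have h3 : (A (e j) k').2 - (((A (e j) k').1 / (A (e i) k).1 : ℕ) : ℤ) * (A (e i) k).2 =
      (A (e j) k').2 + (((A (e j) k').1 / (A (e i) k).1 : ℕ) : ℤ) * (-(A (e i) k).2) := by ring
    rw [h3]
    exact h2
  have hodd : ∀ i k, (A i k).2 % 2 = 1 := by
    intro i k
    have h1 := hloc0 2 Nat.prime_two (by omega) i k
    norm_num at h1
    omega
  have heven : ∀ i j k k', ∀ Q : ℤ, 2 ∣ ((A j k').2 - Q * (A i k).2) * Q := by
    intro i j k k' Q
    have h1 := hodd i k
    have h2 := hodd j k'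
    rcases Int.even_or_odd Q with h3 | h3
    · exact (h3.two_dvd).mul_left _
    · have h4 : Odd (A i k).2 := Int.odd_iff.2 h1
      have h5 : Odd (A j k').2 := Int.odd_iff.2 h2
      exact ((h5.sub_odd (h3.mul h4)).two_dvd).mul_right _
  have htriv : Many (4 * K + 2 + 1) 0 1 := by
    obtain ⟨g, g', hlt, k, k', F, hF, hF', hfr⟩ := h
      (fun g i => (1, ((4 * K).factorial : ℤ) * ((finProdFinEquiv (g, i) : Fin (4 * K)) : ℕ) + 1))
      (by
        intro x y hxy
        simp only [Prod.mk.injEq, true_and] at hxy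
        have h1 : ((4 * K).factorial : ℤ) ≠ 0 := by
          exact_mod_cast (Nat.factorial_pos _).ne'
        have h2 := mul_left_cancel₀ h1 (by linarith : ((4 * K).factorial : ℤ) *
          ((finProdFinEquiv (x.1, x.2) : Fin (4 * K)) : ℕ) = ((4 * K).factorial : ℤ) *
          ((finProdFinEquiv (y.1, y.2) : Fin (4 * K)) : ℕ))
        have h3 : (finProdFinEquiv (x.1, x.2) : Fin (4 * K)) = finProdFinEquiv (y.1, y.2) := by
          apply Fin.ext
          exact_mod_cast h2
        exact finProdFinEquiv.injective h3)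
      (fun g i => ⟨by norm_num, isCoprime_one_left⟩)
      (fun p hp hle => ⟨0, fun g i hd => by
        simp only [mul_zero, zero_add] at hd
        have h1 : (p : ℤ) ∣ ((4 * K).factorial : ℤ) := by
          exact_mod_cast (Nat.Prime.dvd_factorial hp).2 hle
        have h2 : (p : ℤ) ∣ 1 := (Int.dvd_add_right (h1.mul_right _)).1 hd
        have h3 := Int.le_of_dvd one_pos h2
        have := hp.two_le
        omega⟩)
    have h1 := good_of_cnt (C := 4 * K + 2) (s := 1) (s' := 1) (Q := 1) one_pos (by norm_num) hF hF hfr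
    simpa using h1
  have hQ : ∀ g g', g < g' → ∀ k k', ((A (e g') k').1 : ℤ) =
      (A (e g) k).1 * ((A (e g') k').1 / (A (e g) k).1 : ℕ) := by
    intro g g' hlt k k'
    exact_mod_cast (Nat.mul_div_cancel' (hdiv g g' hlt k k')).symm
  by_cases hinj : Function.Injective (fun x : Fin 4 × Fin K =>
      (((A (e x.1) x.2).1 : ℤ), (A (e x.1) x.2).2))
  · obtain ⟨g, g', hlt, k, k', F, hF, hF', hfr⟩ := h (fun g i => (((A (e g) i).1 : ℤ), (A (e g) i).2))
      hinj (fun g i => ⟨Nat.cast_pos.2 (hAM (e g) i).1, hcop2 _ _⟩)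
      (fun p hp hle => ⟨0, fun g i => by
        simp only [mul_zero, zero_add]
        exact hloc0 p hp hle _ _⟩)
    refine ⟨e g, hemem g, e g', hemem g', e.strictMono hlt, k, k',
      Or.inr ⟨hgcd _ _ hlt _ _, heven _ _ _ _ _, ?_⟩⟩
    exact good_of_cnt (by exact_mod_cast (hAM _ _).1) (hQ g g' hlt k k') hF hF' hfr
  · -- equal forms in different classes
    have hex : ∃ g g', g < g' ∧ ∃ k k', (A (e g) k) = A (e g') k' := by
      rw [Function.Injective] at hinj
      push Not at hinj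
      obtain ⟨x, y, hxy, hne⟩ := hinj
      simp only [Prod.mk.injEq, Nat.cast_inj] at hxy
      have hxy' : A (e x.1) x.2 = A (e y.1) y.2 := Prod.ext hxy.1 hxy.2
      rcases lt_trichotomy x.1 y.1 with h1 | h1 | h1
      · exact ⟨x.1, y.1, h1, x.2, y.2, hxy'⟩
      · exfalso
        apply hne
        rw [h1] at hxy'
        exact Prod.ext h1 (hA _ hxy')
      · exact ⟨y.1, x.1, h1, y.2, x.2, hxy'.symm⟩
    obtain ⟨g, g', hlt, k, k', h1⟩ := hex
    refine ⟨e g, hemem g, e g', hemem g', e.strictMono hlt, k, k',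
      Or.inr ⟨hgcd _ _ hlt _ _, heven _ _ _ _ _, ?_⟩⟩
    rw [← h1, Nat.div_self (hAM _ _).1]
    push_cast
    rw [one_mul, sub_self]
    exact htriv

end Pool.Agent.R493.OT
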